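import Pool.Agent.H440.TF.Core
import Pool.Graph.R_seed8.W164.RC.Bad

/-!
# The zeros of `L(H^i(X_E), s)` for all varieties `X` with cohomology of CM type and all large abelian
# extensions `E` of a number field

`K` is any number field and `X` any smooth projective variety over `K` for which the cohomology `H^i(X)`
is of CM type over `K`: the eigenvalues of the Frobenius at almost all primes `v` are the numbers
`N(v)^(i/2) χ_j(v)`, `j = 1, …, N`, for (unitary) Hecke characters `χ_j` of `K`, of any infinity types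
(characters of finite order are allowed).  Examples: `X` a point, `i = 0`; all abelian varieties with
complex multiplication over `K` (Shimura, Taniyama), in all degrees `i`; all diagonal (Fermat)
hypersurfaces over `K ⊇ ℚ(ζ_m)`, of every dimension and degree `m`, and all varieties dominated by products
of them (Weil); K3 surfaces of Picard number 20 (Shioda, Inose), over large `K`.  For every number field
`E ⊇ K` the variety `X_E`, seen as a variety over `ℚ`, is one of the varieties of the problem, and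
`L(H^i(X_E), s)` is its `L`-function.

We prove, without any hypothesis, a theorem on the zeros of `L(H^i(X_E), s)` for *all* abelian extensions
`E/K` (not only for the ray class fields) which have an Artin map modulo `𝔮` and the real places and are
large, `[E : K] ≥ N(𝔮)^δ`, for a fixed `δ > 2/3`: `L(H^i(X_E), s)` has a meromorphic continuation, analytic
for `Re s > i/2`, `s ≠ i/2 + 1`, and the proportion of its zeros with `i/2 < Re s < i/2 + 1`,
`T < Im s ≤ 2T` which lie on the line `Re s = (i + 1)/2` is at least `2 - δ/2 - cot(δ/√2)/√2 - ε` for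
`(log N(𝔮))² ≤ T ≤ N(𝔮)^η`, uniformly in `X`, `E` and the Euler factors (of weights at most `i`) at the
primes above `𝔮`; the constant is `0.2794` for `δ → 2/3` and `0.6725` for `δ → 1`.  The number of these zeros is
at least `(δ - ε) N [E : K] (T / 2π) log N(𝔮)`; by the functional equations it is at most about
`N [E : K] (T / 2π) log N(𝔮)`.  There are arbitrarily large multiples `𝔮` of every ideal for which the
narrow ray class field satisfies `[E : K] ≥ N(𝔮)^δ`.

If `X` is a point this is the theorem LargeAbelianEveryField; for the narrow ray class fields and `T` at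
least a power of `N(𝔮)` compare CMCohomologyRayClass.  Here the heights may be as small as `(log N(𝔮))²`,
and `E` is an arbitrary large abelian extension: the families of Hecke characters are thin, of size
`N(𝔮)^δ`.

Proof.  The law of decomposition in `E/K`: the Euler factors of `H^i(X_E)` above a prime of `K` are those
of the `L`-functions of the Hecke characters `χ_j · χ∘art`, `χ` a character of `Gal(E/K)`
(`Pool.Agent.H440.TF.Glue`).  The mean squares of the prime sums over these characters need the number of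
the pairs of ideals of norm at most `M` with the same Artin symbol, and the infinity types only
contribute factors of absolute value one (`Thn`, `Asm`).  The explicit formula uniform in the modulus,
from theta functions and the functional equations of all Hecke characters of `K`, and the trace
inequality with a kernel of Montgomery-Taylor type (`Num`, `Main`).
-/

set_option autoImplicit false

open NumberField IsDedekindDomain

namespace Pool.Agent.Results.MP_7193be_nt.CMCohomologyLargeAbelian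

section variety

variable {K : Type} [Field K] {l : ℕ}

/-- The set `X` of homogeneous polynomials over `𝓞_K` in `l` variables gives a projective variety over
`K`.  For a field `κ` with `q` elements and a homomorphism `𝓞_K → κ` this is `(q - 1)` times the number
of the points of `X` with coordinates in `κ`: the number of the nonzero solutions of the equations. -/
noncomputable def cone (X : Set (MvPolynomial (Fin l) (𝓞 K))) {κ : Type} [Field κ]
    (φ : 𝓞 K →+* κ) : ℕ :=
  Nat.card {u : Fin l → κ // u ≠ 0 ∧ ∀ f ∈ X, MvPolynomial.eval₂ φ u f = 0}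

/-- The elements of the finite multiset `A` are the eigenvalues of the geometric Frobenius at the prime
`v` of `E ⊇ K` on `H^i(X)`, for a variety `X` of dimension `d`: there are finite multisets `β_k` of complex
numbers of absolute value `q_v^{k/2}`, `k = 0, …, 2d`, with `β_i = A`, such that for every finite
extension `κ` of the residue field of `v`, of degree `e`, the number of the points of `X` with
coordinates in `κ` is `∑ (-1)^k ∑_{z ∈ β_k} z^e`.  By the theorem of Deligne such `β_k` exist at almost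
all primes if `X` is smooth, and `β_i` has as many elements as the `i`-th Betti number of `X`; they are
unique. -/
def IsFrobenius (X : Set (MvPolynomial (Fin l) (𝓞 K))) (d i : ℕ) {E : Type} [Field E]
    [NumberField E] [Algebra K E] (v : HeightOneSpectrum (𝓞 E)) (A : Multiset ℂ) : Prop :=
  ∃ β : ℕ → Multiset ℂ, β i = A ∧
    (∀ k, ∀ z ∈ β k, ‖z‖ = (Ideal.absNorm v.asIdeal : ℝ) ^ ((k : ℝ) / 2)) ∧
    ∀ (κ : Type) [Field κ] [Finite κ] (φ : 𝓞 E →+* κ) (e : ℕ), RingHom.ker φ = v.asIdeal →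
      Nat.card κ = Ideal.absNorm v.asIdeal ^ e →
      (cone X (φ.comp (algebraMap (𝓞 K) (𝓞 E))) : ℂ) =
        ((Ideal.absNorm v.asIdeal : ℂ) ^ e - 1) *
          ∑ k ∈ Finset.range (2 * d + 1), (-1 : ℂ) ^ k * ((β k).map (fun z => z ^ e)).sum

end variety

section chars

variable {K : Type} [Field K] [NumberField K]

/-- `x` is totally positive -/
def TotPos (x : 𝓞 K) : Prop := ∀ τ : K →+* ℝ, 0 < τ (x : K)

/-- the archimedean part `∏_φ (φ(x)/|φ(x)|)^(n_φ)` of a unitary Hecke character -/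
noncomputable def phase (n : (K →+* ℂ) → ℕ) (x : K) : ℂ :=
  ∏ φ : K →+* ℂ, (φ x / (‖φ x‖ : ℂ)) ^ n φ

/-- `n` is an infinity type: one of the exponents of two conjugate embeddings is zero. (The phases of
`x` at conjugate embeddings are inverse to each other, so this is no restriction.)  The type `n = 0` is
allowed. -/
def IsType (n : (K →+* ℂ) → ℕ) : Prop :=
  ∀ φ : K →+* ℂ, n φ = 0 ∨ n (ComplexEmbedding.conjugate φ) = 0

/-- `χ` is a (not necessarily primitive) unitary Hecke character modulo `𝔪` of infinity type `n` (with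
arbitrary signs at the real places), as a function on the ideals, zero if not prime to `𝔪`; for `n = 0`
these are the characters of the narrow ray class group modulo `𝔪` -/
structure IsHeckeChar (𝔪 : Ideal (𝓞 K)) (n : (K →+* ℂ) → ℕ) (χ : Ideal (𝓞 K) →*₀ ℂ) : Prop where
  supp : ∀ 𝔞 : Ideal (𝓞 K), 𝔞 ≠ ⊥ → (χ 𝔞 ≠ 0 ↔ IsCoprime 𝔞 𝔪)
  ray : ∀ x : 𝓞 K, x ≠ 0 → x - 1 ∈ 𝔪 → TotPos x → χ (Ideal.span {x}) = phase n (x : K)

/-- The cohomology `H^i(X)` of the projective variety `X` over `K`, of dimension `d`, is of CM type: at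
the primes `v` not dividing `𝔪` the eigenvalues of the Frobenius on it are `N(v)^(i/2) χ_j(v)`, `j ≤ N`,
for Hecke characters `χ_j` modulo `𝔪` of infinity types `n_j`. -/
structure IsCM {l : ℕ} (X : Set (MvPolynomial (Fin l) (𝓞 K))) (d i : ℕ) (𝔪 : Ideal (𝓞 K)) {N : ℕ}
    (n : Fin N → (K →+* ℂ) → ℕ) (χ : Fin N → Ideal (𝓞 K) →*₀ ℂ) : Prop where
  le : i ≤ 2 * d
  char : ∀ j, IsHeckeChar 𝔪 (n j) (χ j)
  frobenius : ∀ v : HeightOneSpectrum (𝓞 K), ¬ 𝔪 ≤ v.asIdeal → IsFrobenius X d i v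
    (Finset.univ.val.map (fun j => (Ideal.absNorm v.asIdeal : ℂ) ^ ((i : ℂ) / 2) * χ j v.asIdeal))

/-- `art` is the Artin map of the abelian extension `E/K` with modulus `𝔮` and all the real places:
it is multiplicative on the ideals prime to `𝔮`; at the primes `P` of `E` above a prime `𝔭` which is
prime to `𝔮` the inertia group is trivial and `art 𝔭` is the Frobenius automorphism; and it is
trivial on the principal ideals `(x)` with `x ≡ 1` modulo `𝔮` and `x` totally positive.  (By class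
field theory there is such a `𝔮`, the finite part of the conductor, for every abelian extension.) -/
structure IsArtinMap {E : Type} [Field E] [NumberField E] [Algebra K E]
    (𝔮 : Ideal (𝓞 K)) (art : Ideal (𝓞 K) → (E ≃ₐ[K] E)) : Prop where
  mul : ∀ 𝔞 𝔟 : Ideal (𝓞 K), IsCoprime 𝔞 𝔮 → IsCoprime 𝔟 𝔮 → art (𝔞 * 𝔟) = art 𝔞 * art 𝔟
  unramified : ∀ 𝔭 : Ideal (𝓞 K), Prime 𝔭 → IsCoprime 𝔭 𝔮 → ∀ P : Ideal (𝓞 E), P.IsPrime →
    (∀ x ∈ 𝔭, algebraMap (𝓞 K) (𝓞 E) x ∈ P) →
    ∀ g : E ≃ₐ[K] E, (∀ x : 𝓞 E, g • x - x ∈ P) → g = 1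
  frobenius : ∀ 𝔭 : Ideal (𝓞 K), Prime 𝔭 → IsCoprime 𝔭 𝔮 → ∀ P : Ideal (𝓞 E), P.IsPrime →
    (∀ x ∈ 𝔭, algebraMap (𝓞 K) (𝓞 E) x ∈ P) → ∀ x : 𝓞 E, art 𝔭 • x - x ^ Ideal.absNorm 𝔭 ∈ P
  principal : ∀ x : 𝓞 K, x - 1 ∈ 𝔮 → TotPos x → art (Ideal.span {x}) = 1

/-- `E` is the narrow ray class field modulo `𝔮` and `art` its Artin map: the kernel of the Artin map
is not larger than the ray -/
structure IsRayClassField {E : Type} [Field E] [NumberField E]
    [Algebra K E] (𝔮 : Ideal (𝓞 K)) (art : Ideal (𝓞 K) → (E ≃ₐ[K] E)) : Prop where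
  artin : IsArtinMap 𝔮 art
  kernel : ∀ 𝔞 : Ideal (𝓞 K), IsCoprime 𝔞 𝔮 → art 𝔞 = 1 → ∃ x y : 𝓞 K, x - 1 ∈ 𝔮 ∧ y - 1 ∈ 𝔮 ∧
    TotPos x ∧ TotPos y ∧ Ideal.span {x} * 𝔞 = Ideal.span {y}

/-- The polynomials `B w` define the Euler factors `1 / B_w(q_w^{-s})` of `L(H^i(X_E), s)`: for the primes
`w` of `E` not dividing `𝔮`, `B_w(z)` is the product of the `1 - α z` over the eigenvalues `α` of the
Frobenius on `H^i(X)`; at the other primes `B_w` is an arbitrary polynomial of weights at most `i`, that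
is, without zeros of absolute value less than `q_w^{-i/2}`. -/
structure IsEulerSystem {l : ℕ} (X : Set (MvPolynomial (Fin l) (𝓞 K))) (d i : ℕ)
    (𝔮 : Ideal (𝓞 K)) (E : Type) [Field E] [NumberField E] [Algebra K E]
    (B : HeightOneSpectrum (𝓞 E) → Polynomial ℂ) : Prop where
  good : ∀ w : HeightOneSpectrum (𝓞 E), ¬ 𝔮.map (algebraMap (𝓞 K) (𝓞 E)) ≤ w.asIdeal →
    ∃ A : Multiset ℂ, IsFrobenius X d i w A ∧
      ∀ z : ℂ, (B w).eval z = (A.map fun α => 1 - α * z).prod
  bad : ∀ w : HeightOneSpectrum (𝓞 E), 𝔮.map (algebraMap (𝓞 K) (𝓞 E)) ≤ w.asIdeal →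
    ∀ z : ℂ, (B w).eval z = 0 → (Ideal.absNorm w.asIdeal : ℝ) ^ (-((i : ℝ) / 2)) ≤ ‖z‖

end chars

/-- `L` is the function `∏_w B_w(q_w^{-s})⁻¹`: this product converges to it for `Re s > i/2 + 1`; it is
meromorphic in the plane, and analytic for `Re s > i/2`, `s ≠ i/2 + 1`. -/
structure IsLFunction {E : Type} [Field E] [NumberField E] (i : ℕ)
    (B : HeightOneSpectrum (𝓞 E) → Polynomial ℂ) (L : ℂ → ℂ) : Prop where
  product : ∀ s : ℂ, (i : ℝ) / 2 + 1 < s.re →
    HasProd (fun w => ((B w).eval ((Ideal.absNorm w.asIdeal : ℂ) ^ (-s)))⁻¹) (L s)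
  meromorphic : MeromorphicOn L Set.univ
  analytic : ∀ s : ℂ, (i : ℝ) / 2 < s.re → s ≠ (i : ℂ) / 2 + 1 → AnalyticAt ℂ L s

/-- The zeros of `L` with `i/2 < Re s < i/2 + 1` and `T < Im s ≤ 2T`. -/
def zeros (L : ℂ → ℂ) (i : ℕ) (T : ℝ) : Set ℂ :=
  {s : ℂ | (i : ℝ) / 2 < s.re ∧ s.re < (i : ℝ) / 2 + 1 ∧ T < s.im ∧ s.im ≤ 2 * T ∧ L s = 0}

/-- The number of these zeros, counted with multiplicity. -/
noncomputable def N₁ (L : ℂ → ℂ) (i : ℕ) (T : ℝ) : ℕ := ∑ᶠ s ∈ zeros L i T, analyticOrderNatAt L s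

/-- The number of those of them that lie on the line `Re s = (i + 1)/2`, counted with multiplicity. -/
noncomputable def N₀ (L : ℂ → ℂ) (i : ℕ) (T : ℝ) : ℕ :=
  ∑ᶠ s ∈ {s : ℂ | s ∈ zeros L i T ∧ s.re = ((i : ℝ) + 1) / 2}, analyticOrderNatAt L s

/-- the constant `δ/2 + cot(δ/√2)/√2`, equal to `1.3275` for `δ = 1` and `1.7205` for `δ = 2/3` -/
noncomputable def c (δ : ℝ) : ℝ := δ / 2 + Real.cot (δ / Real.sqrt 2) / Real.sqrt 2

open Pool.Agent.H440.CM Pool.Agent.H440.TF
open Pool.Agent.Y767 (Mq Cls cls)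
open Pool.Agent.N784.HC
open Pool.Agent.N784.AD (pi1 T1 T1_cop)
open Pool.Agent.N833.CZ (bM bM_iff)
open Pool.Agent.Y773.AB (NL kap)
open Pool.Agent.Helper503_HW (IsArtK)
open H370 (zset mult NN)

section aux

variable {K : Type} [Field K] [NumberField K]

/-- a Hecke character modulo `𝔪` gives one modulo every multiple of `𝔪` -/
lemma exists_Dn {𝔪 𝔮 : Ideal (𝓞 K)} (htop : 𝔮 ≠ ⊤) (hle : 𝔮 ≤ 𝔪) {n : (K →+* ℂ) → ℕ}
    {χ : Ideal (𝓞 K) →*₀ ℂ} (hχ : IsHeckeChar 𝔪 n χ) : ∃ F ∈ Dn n htop, ∀ y : Mq 𝔮,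
      ((F y : ℂˣ) : ℂ) = χ (y : Ideal (𝓞 K)) := by
  have hcop : ∀ y : Mq 𝔮, IsCoprime (y : Ideal (𝓞 K)) 𝔪 := by
    intro y
    have h1 : IsCoprime (y : Ideal (𝓞 K)) 𝔮 := Pool.Agent.Y767.Mq_cop y
    rw [Ideal.isCoprime_iff_sup_eq] at h1 ⊢
    rw [eq_top_iff, ← h1]
    exact sup_le_sup_left hle _
  have hne : ∀ y : Mq 𝔮, χ (y : Ideal (𝓞 K)) ≠ 0 := fun y =>
    (hχ.supp _ (Pool.Agent.Y767.Mq_ne_bot htop y)).mpr (hcop y)
  refine ⟨Pool.Agent.Y773.IQ.toM' χ hne, ?_, fun y => rfl⟩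
  intro y
  ext
  change χ _ = _
  rw [Pool.Agent.N784.AD.pi1_coe, phT_coe]
  exact hχ.ray y (Pool.Agent.Y773.IQ.ne_zero_of_cop htop (Pool.Agent.N784.AD.T1_cop y))
      (hle (Pool.Agent.N784.AD.T1_one y)) (Pool.Agent.N784.AD.T1_tp y)

/-- sums over the zeros after a shift -/
lemma sum_shift {G L : ℂ → ℂ} {c : ℂ} {W V : Set ℂ} (h : ∀ s, s ∈ V ↔ s - c ∈ W)
    (ho : ∀ s ∈ V, analyticOrderNatAt L s = analyticOrderNatAt G (s - c)) :
    ∑ᶠ s ∈ V, analyticOrderNatAt L s = ∑ᶠ s ∈ W, analyticOrderNatAt G s := by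
  have h1 : V = (fun s : ℂ => s + c) '' W := by
    ext s
    rw [h]
    constructor
    · intro hs
      exact ⟨s - c, hs, by ring⟩
    · rintro ⟨t, ht, rfl⟩
      simpa using ht
  rw [h1, finsum_mem_image (fun a _ b _ hab => by simpa using hab)]
  refine finsum_mem_congr rfl fun s hs => ?_
  have h2 := ho (s + c) (by rw [h1]; exact ⟨s, hs, rfl⟩)
  rw [h2, add_sub_cancel_right]

omit [NumberField K] in
lemma isFrobenius_iff {l d i : ℕ} {X : Set (MvPolynomial (Fin l) (𝓞 K))} {E : Type} [Field E]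
    [NumberField E] [Algebra K E] {w : HeightOneSpectrum (𝓞 E)} {A : Multiset ℂ} :
    IsFrobenius X d i w A ↔ Fro X d i w A := Iff.rfl

end aux

/-- **Main theorem.** Let `K` be any number field, `n_1, …, n_N` infinity types of `K`, `2/3 < δ < 1` and
`ε > 0`.  There are `η > 0` and `X₀` such that for every projective variety `X` over `K` with cohomology
`H^i(X)` of CM type, with the infinity types `n_j` and the modulus `𝔪`, every multiple `𝔮 ≠ (1)` of `𝔪` of
norm at least `X₀`, every abelian extension `E/K` with an Artin map modulo `𝔮` and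
`[E : K] ≥ N(𝔮)^δ`, and every choice of the Euler factors (of weights at most `i`) at the finitely many
primes above `𝔮` there is the `L`-function `L = L(H^i(X_E), s)` (which has no pole, and no zero with
`Re s ≥ i/2 + 1`, if all the types are nonzero, for instance if `i` is odd), and for
`(log N(𝔮))² ≤ T ≤ N(𝔮)^η` it has at least `(δ - ε) N [E : K] (T / 2π) log N(𝔮)` zeros with
`i/2 < Re s < i/2 + 1`, `T < Im s ≤ 2T` (with multiplicity), of which the proportion
`2 - δ/2 - cot(δ/√2)/√2 - ε` at least lies on the line `Re s = (i + 1)/2`.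
Moreover, there are arbitrarily large multiples `𝔮` of every ideal for which the narrow ray class field
satisfies `[E : K] ≥ N(𝔮)^δ`. -/
theorem result (K : Type) [Field K] [NumberField K] (N : ℕ) (n : Fin N → (K →+* ℂ) → ℕ)
    (hn : ∀ j, IsType (n j)) (δ : ℝ) (hδ : 2 / 3 < δ) (hδ1 : δ < 1) (ε : ℝ) (hε : 0 < ε) :
    (∃ η X₀ : ℝ, 0 < η ∧
      ∀ (l d i : ℕ) (X : Set (MvPolynomial (Fin l) (𝓞 K))) (𝔪 : Ideal (𝓞 K))
        (χ : Fin N → Ideal (𝓞 K) →*₀ ℂ), IsCM X d i 𝔪 n χ →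
      ∀ 𝔮 : Ideal (𝓞 K), 𝔮 ≠ ⊥ → 𝔮 ≠ ⊤ → 𝔪 ∣ 𝔮 → X₀ ≤ (Ideal.absNorm 𝔮 : ℝ) →
      ∀ (E : Type) [Field E] [NumberField E] [Algebra K E] [IsAbelianGalois K E]
        (art : Ideal (𝓞 K) → (E ≃ₐ[K] E)), IsArtinMap 𝔮 art →
      (Ideal.absNorm 𝔮 : ℝ) ^ δ ≤ Module.finrank K E →
      ∀ B : HeightOneSpectrum (𝓞 E) → Polynomial ℂ, IsEulerSystem X d i 𝔮 E B →
      ∃ L : ℂ → ℂ, IsLFunction i B L ∧
        ((∀ j, n j ≠ 0) → (∀ s : ℂ, (i : ℝ) / 2 < s.re → AnalyticAt ℂ L s) ∧
          ∀ s : ℂ, (i : ℝ) / 2 + 1 ≤ s.re → L s ≠ 0) ∧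
        ∀ T : ℝ, (Real.log (Ideal.absNorm 𝔮)) ^ 2 ≤ T → T ≤ (Ideal.absNorm 𝔮 : ℝ) ^ η →
          (zeros L i T).Finite ∧
          (δ - ε) * (N * (Module.finrank K E * (T / (2 * Real.pi) *
            Real.log (Ideal.absNorm 𝔮)))) ≤ (N₁ L i T : ℝ) ∧
          (2 - c δ - ε) * (N₁ L i T : ℝ) ≤ (N₀ L i T : ℝ)) ∧
    ∀ (𝔪 : Ideal (𝓞 K)) (X : ℝ), 𝔪 ≠ ⊥ →
      ∃ 𝔮 : Ideal (𝓞 K), 𝔮 ≠ ⊥ ∧ 𝔮 ≠ ⊤ ∧ 𝔪 ∣ 𝔮 ∧ X ≤ (Ideal.absNorm 𝔮 : ℝ) ∧
        ∀ (E : Type) [Field E] [NumberField E] [Algebra K E] [IsAbelianGalois K E]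
          (art : Ideal (𝓞 K) → (E ≃ₐ[K] E)), IsRayClassField 𝔮 art →
          (Ideal.absNorm 𝔮 : ℝ) ^ δ ≤ Module.finrank K E := by
  classical
  constructor
  swap
  · intro 𝔪 X hm
    obtain ⟨𝔮, h1, h2, h3, h4, h5⟩ := exists_rayM K δ hδ1 hm X
    exact ⟨𝔮, h1, h2, h3, h4, fun E _ _ _ _ art hart => h5 E art
      ⟨hart.artin.mul, fun 𝔭 h𝔭 hc P hP => ⟨hart.artin.unramified 𝔭 h𝔭 hc P hP.1 hP.2,
        hart.artin.frobenius 𝔭 h𝔭 hc P hP.1 hP.2⟩, hart.artin.principal⟩ hart.kernel⟩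
  obtain ⟨η, X₀, hη, H0⟩ := core K n hn δ hδ hδ1 ε hε
  refine ⟨η, X₀, hη, ?_⟩
  intro l d i X 𝔪 χ hCM 𝔮 hbot htop hdvd hX E _ _ _ _ art hart hE B hB
  have hle : 𝔮 ≤ 𝔪 := Ideal.dvd_iff_le.mp hdvd
  set ι := algebraMap (𝓞 K) (𝓞 E) with hι
  have hart' : IsArtK 𝔮 art := ⟨hart.mul, fun 𝔭 h𝔭 hc P hP =>
    ⟨hart.unramified 𝔭 h𝔭 hc P hP.1 hP.2, hart.frobenius 𝔭 h𝔭 hc P hP.1 hP.2⟩, hart.principal⟩
  choose F hFD hF using fun j => exists_Dn htop hle (hCM.char j)
  obtain ⟨G, hGan, hGmer, hGprod, hGne, hGT⟩ := H0 𝔮 hbot htop hX E art hart' hE F hFD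
  -- the Frobenius at the places of `K` not dividing `𝔮`
  have hFr : ∀ u : HeightOneSpectrum (𝓞 K), ∀ hc : IsCoprime u.asIdeal 𝔮, Fro (K := K) X d i u
      (Finset.univ.val.map (fun j => (Ideal.absNorm u.asIdeal : ℂ) ^ ((i : ℂ) / 2) *
        ((F j ⟨u.asIdeal, hc⟩ : ℂˣ) : ℂ))) := by
    intro u hc
    have hum : ¬ 𝔪 ≤ u.asIdeal := by
      intro h
      rw [Ideal.isCoprime_iff_sup_eq, sup_eq_left.2 (hle.trans h)] at hc
      exact u.isPrime.ne_top hc
    have h1 : Fro (K := K) X d i u _ := hCM.frobenius u hum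
    have h2 : (fun j => (Ideal.absNorm u.asIdeal : ℂ) ^ ((i : ℂ) / 2) *
        ((F j ⟨u.asIdeal, hc⟩ : ℂˣ) : ℂ)) =
        fun j => (Ideal.absNorm u.asIdeal : ℂ) ^ ((i : ℂ) / 2) * χ j u.asIdeal := by
      funext j
      rw [hF j]
    rw [h2]
    exact h1
  -- the places above `𝔮`
  obtain ⟨x, hx, hx0⟩ := Submodule.exists_mem_ne_zero_of_ne_bot hbot
  have hιx : ι x ≠ 0 := fun h => hx0 (Pool.Agent.N784.CZ.ran_inj ι (by rw [h, map_zero]))
  have hfin : {w : HeightOneSpectrum (𝓞 E) | 𝔮.map ι ≤ w.asIdeal}.Finite :=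
    (Pool.Agent.W164.RC.places_finite hιx).subset fun w hw => hw (Ideal.mem_map_of_mem ι hx)
  set S : Finset (HeightOneSpectrum (𝓞 E)) := hfin.toFinset with hS
  have hmemS : ∀ w, w ∈ S ↔ 𝔮.map ι ≤ w.asIdeal := fun w => by rw [hS]; simp
  have hq1 : ∀ w : HeightOneSpectrum (𝓞 E), (1 : ℝ) < (Ideal.absNorm w.asIdeal : ℝ) :=
    Pool.Agent.W353.PV.one_lt_norm
  have hq0 : ∀ w : HeightOneSpectrum (𝓞 E), (Ideal.absNorm w.asIdeal : ℂ) ≠ 0 := by
    intro w h0
    have h1 := hq1 w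
    have h2 : (Ideal.absNorm w.asIdeal : ℝ) = 0 := by exact_mod_cast h0
    linarith
  have hev0 : ∀ w ∈ S, ∀ j, evA (F j) art w = 0 := by
    intro w hw j
    unfold evA
    rw [dif_neg]
    rw [cop_iff]
    exact not_not.mpr ((hmemS w).mp hw)
  -- the bad factors
  set D : ℂ → ℂ := fun s => ∏ w ∈ S, (B w).eval ((Ideal.absNorm w.asIdeal : ℂ) ^ (-s)) with hD
  have hDd : Differentiable ℂ D := by
    refine Differentiable.fun_finsetProd fun w _ => ?_
    refine (Polynomial.differentiable (B w)).comp ?_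
    intro s
    exact (differentiableAt_id.neg).const_cpow (Or.inl (hq0 w))
  have hDne : ∀ s : ℂ, (i : ℝ) / 2 < s.re → D s ≠ 0 := by
    intro s hs
    rw [hD]
    simp only
    rw [Finset.prod_ne_zero_iff]
    intro w hw h0
    have h1 := hB.bad w ((hmemS w).mp hw) _ h0
    have h2 : 0 < Ideal.absNorm w.asIdeal := by
      have := hq1 w
      exact_mod_cast (by linarith : (0 : ℝ) < (Ideal.absNorm w.asIdeal : ℝ))
    rw [Complex.norm_natCast_cpow_of_pos h2, Complex.neg_re] at h1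
    have h3 : (Ideal.absNorm w.asIdeal : ℝ) ^ (-s.re) <
        (Ideal.absNorm w.asIdeal : ℝ) ^ (-((i : ℝ) / 2)) :=
      Real.rpow_lt_rpow_of_exponent_lt (hq1 w) (by linarith)
    linarith
  obtain ⟨c₀, hc⟩ : ∃ c₀ : ℂ, c₀ = (i : ℂ) / 2 := ⟨_, rfl⟩
  have hcr : c₀ = (((i : ℝ) / 2 : ℝ) : ℂ) := by rw [hc]; push_cast; rfl
  have hcre : c₀.re = (i : ℝ) / 2 := by rw [hcr, Complex.ofReal_re]
  have hcim : c₀.im = 0 := by rw [hcr, Complex.ofReal_im]
  have hre : ∀ s : ℂ, (s - c₀).re = s.re - (i : ℝ) / 2 := fun s => by rw [Complex.sub_re, hcre]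
  have him : ∀ s : ℂ, (s - c₀).im = s.im := fun s => by rw [Complex.sub_im, hcim, sub_zero]
  set L : ℂ → ℂ := fun s => G (s - c₀) * (D s)⁻¹ with hL
  have hGc : ∀ s : ℂ, s - c₀ ≠ 1 → AnalyticAt ℂ (fun z => G (z - c₀)) s := by
    intro s hs
    have h1 : AnalyticAt ℂ (fun z : ℂ => z - c₀) s := by fun_prop
    exact AnalyticAt.fun_comp (hGan _ hs) h1
  have hLan : ∀ s : ℂ, (i : ℝ) / 2 < s.re → s - c₀ ≠ 1 → AnalyticAt ℂ L s := fun s hs h1 =>
    (hGc s h1).mul ((hDd.analyticAt s).inv (hDne s hs))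
  have hLord : ∀ s : ℂ, (i : ℝ) / 2 < s.re → s - c₀ ≠ 1 → analyticOrderNatAt L s =
      analyticOrderNatAt G (s - c₀) := by
    intro s hs h1s
    unfold analyticOrderNatAt
    have h1 : analyticOrderAt L s = analyticOrderAt (fun z => G (z - c₀)) s +
        analyticOrderAt (fun z => (D z)⁻¹) s :=
      analyticOrderAt_mul (hGc s h1s) ((hDd.analyticAt s).inv (hDne s hs))
    have h2 : analyticOrderAt (fun z => (D z)⁻¹) s = 0 := by
      have h3 : AnalyticAt ℂ (fun z => (D z)⁻¹) s := (hDd.analyticAt s).inv (hDne s hs)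
      rw [h3.analyticOrderAt_eq_zero]
      exact inv_ne_zero (hDne s hs)
    have h3 : analyticOrderAt (fun z => G (z - c₀)) s = analyticOrderAt G (s - c₀) := by
      have hg : AnalyticAt ℂ (fun z : ℂ => z - c₀) s := by fun_prop
      have hd : deriv (fun z : ℂ => z - c₀) s ≠ 0 := by simp
      exact analyticOrderAt_comp_of_deriv_ne_zero (f := G) hg hd
    rw [h1, h2, add_zero, h3]
  have hL0 : ∀ s : ℂ, (i : ℝ) / 2 < s.re → (L s = 0 ↔ G (s - c₀) = 0) := by
    intro s hs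
    rw [hL]
    simp only
    rw [mul_eq_zero, inv_eq_zero]
    exact ⟨fun h => h.resolve_right (hDne s hs), Or.inl⟩
  refine ⟨L, ⟨?_, ?_, ?_⟩, ?_, ?_⟩
  · -- the Euler product
    intro s hs
    have hs' : 1 < (s - c₀).re := by rw [hre]; linarith
    have h1 := hGprod _ hs'
    have h2 : HasProd (fun w : HeightOneSpectrum (𝓞 E) =>
        if w ∈ S then ((B w).eval ((Ideal.absNorm w.asIdeal : ℂ) ^ (-s)))⁻¹ else 1)
        (∏ w ∈ S, if w ∈ S then ((B w).eval ((Ideal.absNorm w.asIdeal : ℂ) ^ (-s)))⁻¹ else 1) :=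
      hasProd_prod_of_ne_finset_one fun w hw => if_neg hw
    have h3 : (∏ w ∈ S, if w ∈ S then ((B w).eval ((Ideal.absNorm w.asIdeal : ℂ) ^ (-s)))⁻¹
        else 1) = (D s)⁻¹ := by
      rw [hD]
      simp only
      rw [← Finset.prod_inv_distrib]
      exact Finset.prod_congr rfl fun w hw => if_pos hw
    rw [h3] at h2
    refine (h1.mul h2).congr_fun fun w => ?_
    by_cases hw : w ∈ S
    · rw [if_pos hw]
      have h4 : ∏ j, (1 - evA (F j) art w * (Ideal.absNorm w.asIdeal : ℂ) ^ (-(s - c₀)))⁻¹ =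
          1 := by
        refine Finset.prod_eq_one fun j _ => ?_
        rw [hev0 w hw j, zero_mul, sub_zero, inv_one]
      rw [h4, one_mul]
    · rw [if_neg hw, mul_one]
      have hw' : ¬ 𝔮.map ι ≤ w.asIdeal := fun h => hw ((hmemS w).mpr h)
      obtain ⟨A, hA, hBA⟩ := hB.good w hw'
      have h4 := fro_unique hCM.le (isFrobenius_iff.mp hA) (eigA hart' hFr hw')
      rw [hBA, h4, Finset.prod_inv_distrib, Multiset.map_map]
      congr 1
      refine Finset.prod_congr rfl fun j _ => ?_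
      simp only [Function.comp_apply]
      congr 1
      rw [neg_sub, sub_eq_add_neg, Complex.cpow_add _ _ (hq0 w), hc]
      ring
  · -- meromorphic
    intro s _
    refine MeromorphicAt.mul ?_ (hDd.analyticAt s).meromorphicAt.inv
    by_cases h1 : s - c₀ = 1
    · have hg : AnalyticAt ℂ (fun z : ℂ => z - c₀) s := by fun_prop
      have h2 : MeromorphicAt G ((fun z : ℂ => z - c₀) s) := by
        simp only
        rw [h1]
        exact hGmer
      exact MeromorphicAt.comp_analyticAt h2 hg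
    · exact (hGc s h1).meromorphicAt
  · intro s hs h1
    refine hLan s hs fun h2 => h1 ?_
    rw [← hc]
    linear_combination h2
  · -- nonzero types
    intro h0
    obtain ⟨g1, g2⟩ := hGne h0
    constructor
    · intro s hs
      have h3 : Differentiable ℂ (fun s => G (s - c₀)) := g1.comp (differentiable_id.sub_const _)
      exact (h3.analyticAt s).mul ((hDd.analyticAt s).inv (hDne s hs))
    · intro s hs
      have h1 : (i : ℝ) / 2 < s.re := by linarith
      rw [Ne, hL0 s h1]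
      refine g2 _ ?_
      rw [hre]
      linarith
  · -- the zeros
    intro T hT hTh
    obtain ⟨hT0, c0, c1, c2⟩ := hGT T hT hTh
    have hz1 : ∀ s : ℂ, T < s.im → s - c₀ ≠ 1 := by
      intro s h1 h2
      have h3 := him s
      rw [h2, Complex.one_im] at h3
      linarith
    have hzz : ∀ s : ℂ, s ∈ zeros L i T ↔ s - c₀ ∈ zset G T (2 * T) := by
      intro s
      constructor
      · rintro ⟨b1, b2, b3, b4, b5⟩
        refine ⟨?_, ?_, ?_, ?_, (hL0 s b1).mp b5⟩
        · rw [hre]; linarith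
        · rw [hre]; linarith
        · rw [him]; exact b3
        · rw [him]; exact b4
      · rintro ⟨b1, b2, b3, b4, b5⟩
        rw [hre] at b1 b2
        rw [him] at b3 b4
        have b1' : (i : ℝ) / 2 < s.re := by linarith
        exact ⟨b1', by linarith, b3, b4, (hL0 s b1').mpr b5⟩
    have k1 : N₁ L i T = NN G T (2 * T) := by
      refine sum_shift (c := c₀) hzz ?_
      rintro s ⟨b1, -, b3, -⟩
      exact hLord s b1 (hz1 s b3)
    have k2 : N₀ L i T = NL G T (2 * T) := by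
      refine sum_shift (c := c₀) (W := {s : ℂ | s ∈ zset G T (2 * T) ∧ s.re = 1 / 2}) ?_ ?_
      · intro s
        constructor
        · rintro ⟨b1, b2⟩
          refine ⟨(hzz s).mp b1, ?_⟩
          rw [hre, b2]
          ring
        · rintro ⟨b1, b2⟩
          refine ⟨(hzz s).mpr b1, ?_⟩
          rw [hre] at b2
          linarith
      · rintro s ⟨⟨b1, -, b3, -⟩, -⟩
        exact hLord s b1 (hz1 s b3)
    refine ⟨?_, ?_, ?_⟩
    · refine (c0.image (fun s => s + c₀)).subset ?_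
      intro s hs
      exact ⟨s - c₀, (hzz s).mp hs, by ring⟩
    · rw [k1]
      exact c1
    · rw [k1, k2]
      exact c2

end Pool.Agent.Results.MP_7193be_nt.CMCohomologyLargeAbelian
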