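import Pool.Agent.H440.CM.Core
import Pool.Graph.R_pool_sql_team_seeded_63374d34.N784.HC.Exi
import Pool.Graph.R_seed8.W164.RC.Bad

/-!
# The zeros of `L(H^i(X_E), s)` for all varieties `X` with cohomology of CM type and all ray class
# fields `E` of a number field

`K` is any number field and `X` any smooth projective variety over `K` for which the cohomology `H^i(X)`
is of CM type over `K`: the eigenvalues of the Frobenius at almost all primes `v` are the numbers
`N(v)^(i/2) χ_j(v)` for (unitary) Hecke characters `χ_j` of `K`.  Examples: all abelian varieties with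
complex multiplication over `K` (Shimura, Taniyama), in all degrees; all diagonal (Fermat) hypersurfaces
over `K ⊇ ℚ(ζ_m)`, of every dimension and degree `m`, and all varieties dominated by products of them
(Weil); K3 surfaces of Picard number 20, if `K` is large enough (Shioda, Inose).  Let `N`
of the characters have a nonzero infinity type and let `N'` of them be of finite order; for odd `i` one has
`N' = 0`, and for `i = 2m` the finite ones correspond by the conjecture of Tate to the cycles of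
codimension `m`.  For every number field `E ⊇ K` the variety `X_E`, seen as a variety over `ℚ`, is one of
the varieties of the problem, and `L(H^i(X_E), s)` is its `L`-function.

We prove, without any hypothesis, a theorem on the zeros of `L(H^i(X_E), s)` for the narrow ray class
fields `E` of `K` of modulus `𝔮`.  Up to Euler factors at the primes above `𝔮`, `L(H^i(X_E), s)` is the
product of `ζ_E(s - i/2)^N'` and of the function `L(s)` of the transcendental part; for odd `i` it is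
`L(s)`.  If the units of `K` occupy at most `N(𝔮)^δ` residue classes modulo `𝔮` (there are such `𝔮`
divisible by every given ideal), then `L(s)` has a meromorphic continuation, without zeros and poles for
`Re s ≥ i/2 + 1`, analytic for `Re s > i/2`, and at least 67.25 per cent of its zeros with `Re s > i/2`,
`T < Im s ≤ 2T` lie on the line `Re s = (i + 1)/2`, for `N(𝔮)^η ≤ T` and
`(N(𝔮) T^[K:ℚ])^(1 - a) ≤ N(𝔮)`; the number of these zeros is at least `1 - ε` times
`N [E : K] (T / 2π) log(N(𝔮) T^[K:ℚ])`, the number expected from the functional equation with the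
conductors bounded by `N(𝔮)`.  All this holds for all choices of Euler factors of weights at most `i` at
the finitely many primes above `𝔮`, and `δ` depends only on the infinity types of the `χ_j`.

Proof.  The law of decomposition in `E/K`: the Euler factors of `H^i(X_E)` above a prime of `K` are those
of the `L`-functions of all the Hecke characters modulo `𝔮` with the infinity types of the `χ_j`
(`Pool.Agent.H440.CM.Glue`, `Lift`); the theorem on the zeros of all Hecke characters of a given type of an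
arbitrary number field (`MP_7193be_nt.HeckeEveryNumberField` and `Pool.Agent.N784.CZ.prod_core`) for the
types of the `χ_j` and their conjugates; and the product is real (`Pool.Agent.H440.CM.Core`).
-/

set_option autoImplicit false

open NumberField IsDedekindDomain

namespace Pool.Agent.Results.MP_7193be_nt.CMCohomologyRayClass

section variety

variable {K : Type} [Field K] {l : ℕ}

/-- The set `X` of homogeneous polynomials over `𝓞_K` in `l` variables gives a projective variety over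
`K`.  For a field `κ` with `q` elements and a homomorphism `𝓞_K → κ` this is `(q - 1)` times the number
of the points of `X` with coordinates in `κ`: the number of the nonzero solutions of the equations. -/
noncomputable def cone (X : Set (MvPolynomial (Fin l) (𝓞 K))) {κ : Type} [Field κ]
    (φ : 𝓞 K →+* κ) : ℕ :=
  Nat.card {u : Fin l → κ // u ≠ 0 ∧ ∀ f ∈ X, MvPolynomial.eval₂ φ u f = 0}

/-- The elements of the finite multiset `A` are the eigenvalues of the geometric Frobenius at the prime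
`v` of `E ⊇ K` on `H^i(X)`, for a variety `X` of dimension `d`: there are finite multisets `β_k` of complex
numbers of absolute value `q_v^{k/2}`, `k = 0, …, 2d`, with `β_i = A`, such that for every finite
extension `κ` of the residue field of `v`, of degree `e`, the number of the points of `X` with
coordinates in `κ` is `∑ (-1)^k ∑_{z ∈ β_k} z^e`.  By the theorem of Deligne such `β_k` exist at almost
all primes if `X` is smooth, and `β_i` has as many elements as the `i`-th Betti number of `X`; they are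
unique. -/
def IsFrobenius (X : Set (MvPolynomial (Fin l) (𝓞 K))) (d i : ℕ) {E : Type} [Field E]
    [NumberField E] [Algebra K E] (v : HeightOneSpectrum (𝓞 E)) (A : Multiset ℂ) : Prop :=
  ∃ β : ℕ → Multiset ℂ, β i = A ∧
    (∀ k, ∀ z ∈ β k, ‖z‖ = (Ideal.absNorm v.asIdeal : ℝ) ^ ((k : ℝ) / 2)) ∧
    ∀ (κ : Type) [Field κ] [Finite κ] (φ : 𝓞 E →+* κ) (e : ℕ), RingHom.ker φ = v.asIdeal →
      Nat.card κ = Ideal.absNorm v.asIdeal ^ e →
      (cone X (φ.comp (algebraMap (𝓞 K) (𝓞 E))) : ℂ) =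
        ((Ideal.absNorm v.asIdeal : ℂ) ^ e - 1) *
          ∑ k ∈ Finset.range (2 * d + 1), (-1 : ℂ) ^ k * ((β k).map (fun z => z ^ e)).sum

end variety

section chars

variable {K : Type} [Field K] [NumberField K]

/-- `x` is totally positive -/
def TotPos (x : 𝓞 K) : Prop := ∀ τ : K →+* ℝ, 0 < τ (x : K)

/-- the archimedean part `∏_φ (φ(x)/|φ(x)|)^(n_φ)` of a unitary Hecke character -/
noncomputable def phase (n : (K →+* ℂ) → ℕ) (x : K) : ℂ :=
  ∏ φ : K →+* ℂ, (φ x / (‖φ x‖ : ℂ)) ^ n φ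

/-- `n` is a nonzero infinity type: one of the exponents of two conjugate embeddings is zero. (The
phases of `x` at conjugate embeddings are inverse to each other, so this is no restriction.) -/
structure IsType (n : (K →+* ℂ) → ℕ) : Prop where
  conj : ∀ φ : K →+* ℂ, n φ = 0 ∨ n (ComplexEmbedding.conjugate φ) = 0
  ne_zero : n ≠ 0

/-- `χ` is a (not necessarily primitive) unitary Hecke character modulo `𝔪` of infinity type `n` (with
arbitrary signs at the real places), as a function on the ideals, zero if not prime to `𝔪`; for `n = 0`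
these are the characters of the narrow ray class group modulo `𝔪` -/
structure IsHeckeChar (𝔪 : Ideal (𝓞 K)) (n : (K →+* ℂ) → ℕ) (χ : Ideal (𝓞 K) →*₀ ℂ) : Prop where
  supp : ∀ 𝔞 : Ideal (𝓞 K), 𝔞 ≠ ⊥ → (χ 𝔞 ≠ 0 ↔ IsCoprime 𝔞 𝔪)
  ray : ∀ x : 𝓞 K, x ≠ 0 → x - 1 ∈ 𝔪 → TotPos x → χ (Ideal.span {x}) = phase n (x : K)

/-- The cohomology `H^i(X)` of the projective variety `X` over `K`, of dimension `d`, is of CM type: at
the primes `v` not dividing `𝔪` the eigenvalues of the Frobenius on it are `N(v)^(i/2) χ_j(v)`, `j ≤ N`, and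
`N(v)^(i/2) ρ_k(v)`, `k ≤ N'`, for Hecke characters `χ_j` modulo `𝔪` of infinity types `n_j` and characters
`ρ_k` of the narrow ray class group modulo `𝔪`. -/
structure IsCM {l : ℕ} (X : Set (MvPolynomial (Fin l) (𝓞 K))) (d i : ℕ) (𝔪 : Ideal (𝓞 K)) {N N' : ℕ}
    (n : Fin N → (K →+* ℂ) → ℕ) (χ : Fin N → Ideal (𝓞 K) →*₀ ℂ)
    (ρ : Fin N' → Ideal (𝓞 K) →*₀ ℂ) : Prop where
  le : i ≤ 2 * d
  char : ∀ j, IsHeckeChar 𝔪 (n j) (χ j)
  finite : ∀ k, IsHeckeChar 𝔪 0 (ρ k)
  frobenius : ∀ v : HeightOneSpectrum (𝓞 K), ¬ 𝔪 ≤ v.asIdeal → IsFrobenius X d i v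
    (Finset.univ.val.map (fun j => (Ideal.absNorm v.asIdeal : ℂ) ^ ((i : ℂ) / 2) * χ j v.asIdeal) +
      Finset.univ.val.map (fun k => (Ideal.absNorm v.asIdeal : ℂ) ^ ((i : ℂ) / 2) * ρ k v.asIdeal))

/-- the number of residue classes modulo `𝔮` which contain a unit of `K` -/
noncomputable def unitClasses (𝔮 : Ideal (𝓞 K)) : ℕ :=
  (Set.range (fun u : (𝓞 K)ˣ => Ideal.Quotient.mk 𝔮 (u : 𝓞 K))).ncard

/-- `E` is the (narrow) ray class field of `K` of modulus `𝔮`: `art` is the Artin map (used only for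
the ideals prime to `𝔮`), with values in the automorphisms of the ring of integers of `E`
(equivalently, of `E`), such that
* `art` is multiplicative,
* the integers of `K` are the invariants (so `E/K` is Galois and `art` is surjective onto its group),
* the kernel consists of the ideals `𝔞` with `(a) 𝔞 = (b)` for some totally positive
  `a, b ≡ 1 mod 𝔮` (so the Galois group is the narrow ray class group modulo `𝔮`),
* `E/K` is unramified outside `𝔮`: the inertia group at every prime `w` of `E` not dividing `𝔮` is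
  trivial,
* for every prime ideal `𝔭` not dividing `𝔮`, `art 𝔭` is the Frobenius automorphism
  `x ↦ x ^ N(𝔭)` at all primes `w` of `E` above `𝔭`. -/
structure IsRayClassField (𝔮 : Ideal (𝓞 K)) (E : Type) [Field E] [NumberField E] [Algebra K E]
    (art : Ideal (𝓞 K) → (𝓞 E ≃+* 𝓞 E)) : Prop where
  mul : ∀ 𝔞 𝔟 : Ideal (𝓞 K), IsCoprime 𝔞 𝔮 → IsCoprime 𝔟 𝔮 → art (𝔞 * 𝔟) = art 𝔞 * art 𝔟
  invariants : ∀ x : 𝓞 E, (∀ 𝔞 : Ideal (𝓞 K), IsCoprime 𝔞 𝔮 → art 𝔞 x = x) ↔
    x ∈ (algebraMap (𝓞 K) (𝓞 E)).range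
  kernel : ∀ 𝔞 : Ideal (𝓞 K), IsCoprime 𝔞 𝔮 → (art 𝔞 = 1 ↔ ∃ a b : 𝓞 K, a - 1 ∈ 𝔮 ∧ b - 1 ∈ 𝔮 ∧
    TotPos a ∧ TotPos b ∧ Ideal.span {a} * 𝔞 = Ideal.span {b})
  unramified : ∀ w : HeightOneSpectrum (𝓞 E), ¬ 𝔮.map (algebraMap (𝓞 K) (𝓞 E)) ≤ w.asIdeal →
    ∀ 𝔞 : Ideal (𝓞 K), IsCoprime 𝔞 𝔮 → (∀ x, art 𝔞 x - x ∈ w.asIdeal) → art 𝔞 = 1
  frobenius : ∀ 𝔭 : Ideal (𝓞 K), 𝔭.IsPrime → IsCoprime 𝔭 𝔮 → ∀ w : HeightOneSpectrum (𝓞 E),
    𝔭.map (algebraMap (𝓞 K) (𝓞 E)) ≤ w.asIdeal → ∀ x : 𝓞 E, art 𝔭 x - x ^ Ideal.absNorm 𝔭 ∈ w.asIdeal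

/-- The polynomials `B w` define the Euler factors `1 / B_w(q_w^{-s})` of the transcendental part of
`L(H^i(X_E), s)`: for the primes `w` of `E` not dividing `𝔮` the eigenvalues of the Frobenius on `H^i(X)` are
the number `q_w^{i/2}`, `N'` times, and other numbers `α`, and `B_w(z)` is the product of the `1 - α z`
(so, if `N' = 0`, it is the Euler polynomial of `H^i(X)`); at the other primes `B_w` is an arbitrary
polynomial of weights at most `i`, that is, without zeros of absolute value less than `q_w^{-i/2}`. -/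
structure IsEulerSystem {l : ℕ} (X : Set (MvPolynomial (Fin l) (𝓞 K))) (d i N' : ℕ)
    (𝔮 : Ideal (𝓞 K)) (E : Type) [Field E] [NumberField E] [Algebra K E]
    (B : HeightOneSpectrum (𝓞 E) → Polynomial ℂ) : Prop where
  good : ∀ w : HeightOneSpectrum (𝓞 E), ¬ 𝔮.map (algebraMap (𝓞 K) (𝓞 E)) ≤ w.asIdeal →
    ∃ A : Multiset ℂ, IsFrobenius X d i w
      (A + Multiset.replicate N' ((Ideal.absNorm w.asIdeal : ℂ) ^ ((i : ℂ) / 2))) ∧
      ∀ z : ℂ, (B w).eval z = (A.map fun α => 1 - α * z).prod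
  bad : ∀ w : HeightOneSpectrum (𝓞 E), 𝔮.map (algebraMap (𝓞 K) (𝓞 E)) ≤ w.asIdeal →
    ∀ z : ℂ, (B w).eval z = 0 → (Ideal.absNorm w.asIdeal : ℝ) ^ (-((i : ℝ) / 2)) ≤ ‖z‖

end chars

/-- `L` is the function `∏_w B_w(q_w^{-s})⁻¹`: this product converges to it for `Re s > i/2 + 1`; it is
meromorphic in the plane, analytic for `Re s > i/2` and has no zero for `Re s ≥ i/2 + 1`. -/
structure IsLFunction {E : Type} [Field E] [NumberField E] (i : ℕ)
    (B : HeightOneSpectrum (𝓞 E) → Polynomial ℂ) (L : ℂ → ℂ) : Prop where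
  product : ∀ s : ℂ, (i : ℝ) / 2 + 1 < s.re →
    HasProd (fun w => ((B w).eval ((Ideal.absNorm w.asIdeal : ℂ) ^ (-s)))⁻¹) (L s)
  meromorphic : MeromorphicOn L Set.univ
  analytic : AnalyticOnNhd ℂ L {s : ℂ | (i : ℝ) / 2 < s.re}
  edge : ∀ s : ℂ, (i : ℝ) / 2 + 1 ≤ s.re → L s ≠ 0

/-- The zeros of `L` with `Re s > i/2` and `T < Im s ≤ 2T`. -/
def zeros (L : ℂ → ℂ) (i : ℕ) (T : ℝ) : Set ℂ :=
  {s : ℂ | (i : ℝ) / 2 < s.re ∧ T < s.im ∧ s.im ≤ 2 * T ∧ L s = 0}

/-- The number of these zeros, counted with multiplicity. -/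
noncomputable def N₁ (L : ℂ → ℂ) (i : ℕ) (T : ℝ) : ℕ := ∑ᶠ s ∈ zeros L i T, analyticOrderNatAt L s

/-- The number of those of them that lie on the line `Re s = (i + 1)/2`, counted with multiplicity. -/
noncomputable def N₀ (L : ℂ → ℂ) (i : ℕ) (T : ℝ) : ℕ :=
  ∑ᶠ s ∈ {s : ℂ | s ∈ zeros L i T ∧ s.re = ((i : ℝ) + 1) / 2}, analyticOrderNatAt L s

/-- For `N(𝔮)^η ≤ T` and `(N(𝔮) T^d)^(1 - a) ≤ N(𝔮)`, `d = [K : ℚ]`, the number of the zeros of `L` with
`Re s > i/2`, `T < Im s ≤ 2T` (with multiplicity) is finite and at least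
`(1 - ε) N [E : K] (T / 2π) log(N(𝔮) T^d)`, and at least 67.25% of them lie on the line
`Re s = (i + 1)/2`. -/
def ZerosOnLine {K : Type} [Field K] [NumberField K] (𝔮 : Ideal (𝓞 K)) (E : Type) [Field E]
    [NumberField E] [Algebra K E] (i N : ℕ) (L : ℂ → ℂ) (a ε η : ℝ) : Prop :=
  ∀ T : ℝ, (Ideal.absNorm 𝔮 : ℝ) ^ η ≤ T →
    ((Ideal.absNorm 𝔮 : ℝ) * T ^ Module.finrank ℚ K) ^ (1 - a) ≤ (Ideal.absNorm 𝔮 : ℝ) →
    (zeros L i T).Finite ∧
    (1 - ε) * (N * (Module.finrank K E * (T / (2 * Real.pi) *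
      Real.log ((Ideal.absNorm 𝔮 : ℝ) * T ^ Module.finrank ℚ K)))) ≤ (N₁ L i T : ℝ) ∧
    0.6725 * (N₁ L i T : ℝ) ≤ (N₀ L i T : ℝ)

open Pool.Agent.H440.CM Pool.Agent.N784.CZ Pool.Agent.N784.HC
open Pool.Agent.Y767 (Mq Cls cls)
open Pool.Agent.N784.AD (pi1 T1 T1_cop)
open Pool.Agent.N833.CZ (bM bM_iff norm_Dn)
open Pool.Agent.H82R3.EK (cnt strip line)

section aux

variable {K : Type} [Field K] [NumberField K]

/-- a Hecke character modulo `𝔪` gives one modulo every multiple of `𝔪` -/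
lemma exists_Dn {𝔪 𝔮 : Ideal (𝓞 K)} (htop : 𝔮 ≠ ⊤) (hle : 𝔮 ≤ 𝔪) {n : (K →+* ℂ) → ℕ}
    {χ : Ideal (𝓞 K) →*₀ ℂ} (hχ : IsHeckeChar 𝔪 n χ) : ∃ F ∈ Dn n htop, ∀ y : Mq 𝔮,
      ((F y : ℂˣ) : ℂ) = χ (y : Ideal (𝓞 K)) := by
  have hcop : ∀ y : Mq 𝔮, IsCoprime (y : Ideal (𝓞 K)) 𝔪 := by
    intro y
    have h1 : IsCoprime (y : Ideal (𝓞 K)) 𝔮 := Pool.Agent.Y767.Mq_cop y
    rw [Ideal.isCoprime_iff_sup_eq] at h1 ⊢
    rw [eq_top_iff, ← h1]
    exact sup_le_sup_left hle _
  have hne : ∀ y : Mq 𝔮, χ (y : Ideal (𝓞 K)) ≠ 0 := fun y =>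
    (hχ.supp _ (Pool.Agent.Y767.Mq_ne_bot htop y)).mpr (hcop y)
  refine ⟨Pool.Agent.Y773.IQ.toM' χ hne, ?_, fun y => rfl⟩
  intro y
  ext
  change χ _ = _
  rw [Pool.Agent.N784.AD.pi1_coe, phT_coe]
  exact hχ.ray y (Pool.Agent.Y773.IQ.ne_zero_of_cop htop (Pool.Agent.N784.AD.T1_cop y))
      (hle (Pool.Agent.N784.AD.T1_one y)) (Pool.Agent.N784.AD.T1_tp y)

/-- counting zeros after a shift -/
lemma sum_shift {G L : ℂ → ℂ} {c : ℂ} {W V : Set ℂ}
    (h : ∀ s, s ∈ V ↔ s - c ∈ W ∧ G (s - c) = 0)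
    (ho : ∀ s ∈ V, analyticOrderNatAt L s = analyticOrderNatAt G (s - c)) :
    ∑ᶠ s ∈ V, analyticOrderNatAt L s = cnt G W := by
  have h1 : V = (fun s : ℂ => s + c) '' {s : ℂ | s ∈ W ∧ G s = 0} := by
    ext s
    rw [h]
    constructor
    · intro hs
      exact ⟨s - c, hs, by ring⟩
    · rintro ⟨t, ht, rfl⟩
      simpa using ht
  unfold cnt
  rw [h1, finsum_mem_image (fun a _ b _ hab => by simpa using hab)]
  refine finsum_mem_congr rfl fun s hs => ?_
  have h2 := ho (s + c) (by rw [h1]; exact ⟨s, hs, rfl⟩)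
  rw [h2, add_sub_cancel_right]
  rfl

section frob

variable {l d i N N' : ℕ} {X : Set (MvPolynomial (Fin l) (𝓞 K))} {𝔪 𝔮 : Ideal (𝓞 K)}
  {n : Fin N → (K →+* ℂ) → ℕ} {χ : Fin N → Ideal (𝓞 K) →*₀ ℂ} {ρ : Fin N' → Ideal (𝓞 K) →*₀ ℂ}
  {E : Type} [Field E] [NumberField E] [Algebra K E]

omit [NumberField K] in
lemma isFrobenius_iff {w : HeightOneSpectrum (𝓞 E)} {A : Multiset ℂ} :
    IsFrobenius X d i w A ↔ Fro X d i w A := Iff.rfl

/-- the eigenvalues at the places of `E` -/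
lemma eig_E (hbot : 𝔮 ≠ ⊥) (htop : 𝔮 ≠ ⊤) (hle : 𝔮 ≤ 𝔪) (hCM : IsCM X d i 𝔪 n χ ρ)
    {art : Ideal (𝓞 K) → (𝓞 E ≃+* 𝓞 E)} (hE : IsRCF 𝔮 E (algebraMap (𝓞 K) (𝓞 E)) art)
    {F : Fin N → (Mq 𝔮 →* ℂˣ)} (hF : ∀ j, ∀ y : Mq 𝔮,
      ((F j y : ℂˣ) : ℂ) = χ j (y : Ideal (𝓞 K))) {w : HeightOneSpectrum (𝓞 E)}
    (hw : ¬ 𝔮.map (algebraMap (𝓞 K) (𝓞 E)) ≤ w.asIdeal) :
    Fro X d i w (Finset.univ.val.map (fun j => (Ideal.absNorm w.asIdeal : ℂ) ^ ((i : ℂ) / 2) *
      ev (algebraMap (𝓞 K) (𝓞 E)) htop (F j) w) +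
      Multiset.replicate N' ((Ideal.absNorm w.asIdeal : ℂ) ^ ((i : ℂ) / 2))) := by
  set ι := algebraMap (𝓞 K) (𝓞 E) with hι
  have hc : IsCoprime (bM ι w).1 𝔮 := (cop_iff ι w).mpr hw
  have hpr : (bM ι w).1.IsPrime := Ideal.isPrime_of_prime (bM ι w).2
  set u : HeightOneSpectrum (𝓞 K) := ⟨(bM ι w).1, hpr, (bM ι w).2.ne_zero⟩ with hu
  obtain ⟨hN, -⟩ := Pool.Agent.N400.CZ.t_split K 𝔮 hbot htop E ι art hE (bM ι w).1 hpr
    (bM ι w).2.ne_zero hc
  have hNw := hN w ((bM_iff w (bM ι w)).mp rfl)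
  have hum : ¬ 𝔪 ≤ u.asIdeal := by
    intro h
    rw [Ideal.isCoprime_iff_sup_eq, sup_eq_left.2 (hle.trans h)] at hc
    exact hpr.ne_top hc
  set f := orderOf (cls (pi1 htop) ⟨(bM ι w).1, hc⟩) with hf
  have h1 : Fro (K := K) X d i u _ := hCM.frobenius u hum
  have h2 := fro_lift (K := E) (v := w) (u := u) (f := f) rfl hNw h1
  have hpw : ((Ideal.absNorm u.asIdeal : ℂ) ^ ((i : ℂ) / 2)) ^ f =
      (Ideal.absNorm w.asIdeal : ℂ) ^ ((i : ℂ) / 2) := by
    have := Pool.Agent.Y773.natCast_pow_cpow (Ideal.absNorm u.asIdeal) f ((i : ℂ) / 2)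
    rw [← this, ← hNw]
  have h3 : (Finset.univ.val.map (fun j => (Ideal.absNorm u.asIdeal : ℂ) ^ ((i : ℂ) / 2) *
      χ j u.asIdeal)).map (fun z => z ^ f) =
      Finset.univ.val.map (fun j => (Ideal.absNorm w.asIdeal : ℂ) ^ ((i : ℂ) / 2) *
        ev ι htop (F j) w) := by
    rw [Multiset.map_map]
    refine Multiset.map_congr rfl fun j _ => ?_
    rw [Function.comp_apply, mul_pow, hpw]
    unfold ev
    rw [dif_pos hc, hF]
  have h4 : (Finset.univ.val.map (fun k => (Ideal.absNorm u.asIdeal : ℂ) ^ ((i : ℂ) / 2) *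
      ρ k u.asIdeal)).map (fun z => z ^ f) =
      Multiset.replicate N' ((Ideal.absNorm w.asIdeal : ℂ) ^ ((i : ℂ) / 2)) := by
    rw [Multiset.map_map, Multiset.eq_replicate]
    constructor
    · simp
    · intro z hz
      obtain ⟨k, -, rfl⟩ := Multiset.mem_map.1 hz
      rw [Function.comp_apply, mul_pow, hpw]
      obtain ⟨R, hR, hRv⟩ := exists_Dn htop hle (hCM.finite k)
      have h5 := pow_order_one hR ⟨(bM ι w).1, hc⟩
      rw [hRv] at h5
      change _ * (ρ k (bM ι w).1) ^ f = _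
      rw [h5, mul_one]
  rw [Multiset.map_add, h3, h4] at h2
  exact h2

/-- the Euler polynomials are real -/
lemma ev_real (hbot : 𝔮 ≠ ⊥) (htop : 𝔮 ≠ ⊤) (hle : 𝔮 ≤ 𝔪) (hCM : IsCM X d i 𝔪 n χ ρ)
    {art : Ideal (𝓞 K) → (𝓞 E ≃+* 𝓞 E)} (hE : IsRCF 𝔮 E (algebraMap (𝓞 K) (𝓞 E)) art)
    {F : Fin N → (Mq 𝔮 →* ℂˣ)} (hF : ∀ j, ∀ y : Mq 𝔮,
      ((F j y : ℂˣ) : ℂ) = χ j (y : Ideal (𝓞 K))) (w : HeightOneSpectrum (𝓞 E)) (x : ℂ) :
    (starRingEnd ℂ) (∏ j, (1 - ev (algebraMap (𝓞 K) (𝓞 E)) htop (F j) w * x)) =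
      ∏ j, (1 - ev (algebraMap (𝓞 K) (𝓞 E)) htop (F j) w * (starRingEnd ℂ) x) := by
  by_cases hw : 𝔮.map (algebraMap (𝓞 K) (𝓞 E)) ≤ w.asIdeal
  · have h0 : ∀ j, ev (algebraMap (𝓞 K) (𝓞 E)) htop (F j) w = 0 := by
      intro j
      unfold ev
      rw [dif_neg]
      rw [cop_iff]
      exact not_not.mpr hw
    simp [h0]
  · have h1 := eig_E hbot htop hle hCM hE hF hw
    have h2 := fro_unique hCM.le (fro_conj h1) h1
    have hq : (0 : ℝ) < (Ideal.absNorm w.asIdeal : ℝ) := by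
      have := Pool.Agent.W353.PV.one_lt_norm w
      linarith
    obtain ⟨c, hc0, hc⟩ : ∃ c : ℝ, c ≠ 0 ∧
        (Ideal.absNorm w.asIdeal : ℂ) ^ ((i : ℂ) / 2) = (c : ℂ) := by
      refine ⟨(Ideal.absNorm w.asIdeal : ℝ) ^ ((i : ℝ) / 2), (Real.rpow_pos_of_pos hq _).ne', ?_⟩
      rw [Complex.ofReal_cpow hq.le]
      push_cast
      rfl
    rw [hc, Multiset.map_add, Multiset.map_replicate] at h2
    change _ + Multiset.replicate N' ((starRingEnd ℂ) (c : ℂ)) = _ at h2
    rw [Complex.conj_ofReal, Multiset.map_map] at h2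
    have h4 := Multiset.add_left_inj.mp h2
    have h3 := congrArg (fun m : Multiset ℂ =>
      (m.map (fun a => 1 - a * ((starRingEnd ℂ) x / c))).prod) h4
    simp only [Multiset.map_map] at h3
    change ∏ j, (1 - (starRingEnd ℂ) ((c : ℂ) * ev (algebraMap (𝓞 K) (𝓞 E)) htop (F j) w) *
        ((starRingEnd ℂ) x / c)) =
      ∏ j, (1 - ((c : ℂ) * ev (algebraMap (𝓞 K) (𝓞 E)) htop (F j) w) *
        ((starRingEnd ℂ) x / c)) at h3
    have hcc : (c : ℂ) ≠ 0 := by exact_mod_cast hc0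
    have e1 : ∀ a : ℂ, (starRingEnd ℂ) ((c : ℂ) * a) * ((starRingEnd ℂ) x / c) =
        (starRingEnd ℂ) (a * x) := by
      intro a
      rw [map_mul, Complex.conj_ofReal, map_mul]
      field_simp
    have e2 : ∀ a : ℂ, ((c : ℂ) * a) * ((starRingEnd ℂ) x / c) = a * (starRingEnd ℂ) x := by
      intro a
      field_simp
    simp_rw [e1, e2] at h3
    rw [map_prod]
    simpa using h3

end frob

end aux

/-- **Main theorem.** There is an absolute constant `0 < a < 1` with the following property.  Let `K` be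
any number field, `n_1, …, n_N` nonzero infinity types of `K` and `ε, η > 0`.  There are `δ > 0` and `X₀`
such that for every projective variety `X` over `K` with cohomology `H^i(X)` of CM type, with the nonzero
infinity types `n_j`, with `N'` characters of finite order and the modulus `𝔪`, every multiple `𝔮 ≠ (1)`
of `𝔪` of norm at least `X₀` for which the units of `K` occupy at most `N(𝔮)^δ` residue classes, the
narrow ray class field `E` of `K` of modulus `𝔮` and every choice of the Euler factors (of weights at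
most `i`) at the finitely many primes above `𝔮` there is the function `L` of the transcendental part of
`L(H^i(X_E), s)` (for `N' = 0`, for instance if `i` is odd, it is `L(H^i(X_E), s)`), and the bounds
`ZerosOnLine` hold for its zeros.
Moreover, for all `δ > 0` there are arbitrarily large multiples `𝔮` of every ideal for which the units
occupy at most `N(𝔮)^δ` residue classes. -/
theorem result :
    (∃ a : ℝ, 0 < a ∧ a < 1 ∧
      ∀ (K : Type) [Field K] [NumberField K] (N : ℕ) (n : Fin N → (K →+* ℂ) → ℕ),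
        (∀ j, IsType (n j)) → ∀ ε η : ℝ, 0 < ε → 0 < η →
      ∃ δ X₀ : ℝ, 0 < δ ∧
      ∀ (l d i N' : ℕ) (X : Set (MvPolynomial (Fin l) (𝓞 K))) (𝔪 : Ideal (𝓞 K))
        (χ : Fin N → Ideal (𝓞 K) →*₀ ℂ) (ρ : Fin N' → Ideal (𝓞 K) →*₀ ℂ), IsCM X d i 𝔪 n χ ρ →
      ∀ 𝔮 : Ideal (𝓞 K), 𝔮 ≠ ⊥ → 𝔮 ≠ ⊤ → 𝔪 ∣ 𝔮 →
        X₀ ≤ (Ideal.absNorm 𝔮 : ℝ) → (unitClasses 𝔮 : ℝ) ≤ (Ideal.absNorm 𝔮 : ℝ) ^ δ →
      ∀ (E : Type) [Field E] [NumberField E] [Algebra K E]
        (art : Ideal (𝓞 K) → (𝓞 E ≃+* 𝓞 E)), IsRayClassField 𝔮 E art →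
      ∀ B : HeightOneSpectrum (𝓞 E) → Polynomial ℂ, IsEulerSystem X d i N' 𝔮 E B →
      ∃ L : ℂ → ℂ, IsLFunction i B L ∧ ZerosOnLine 𝔮 E i N L a ε η) ∧
    ∀ (K : Type) [Field K] [NumberField K] (𝔪 : Ideal (𝓞 K)) (δ B : ℝ), 𝔪 ≠ ⊥ → 0 < δ →
      ∃ 𝔮 : Ideal (𝓞 K), 𝔮 ≠ ⊥ ∧ 𝔪 ∣ 𝔮 ∧
        B ≤ (Ideal.absNorm 𝔮 : ℝ) ∧ (unitClasses 𝔮 : ℝ) ≤ (Ideal.absNorm 𝔮 : ℝ) ^ δ := by
  classical
  refine ⟨?_, fun K _ _ 𝔪 δ B hm hδ => Pool.Agent.N784.HC.exists_modM K hm δ B hδ⟩
  obtain ⟨a₀, e, ha0, ha1, he, hk⟩ := Pool.Agent.N786.exists_h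
  refine ⟨min a₀ (1 / 3), lt_min ha0 (by norm_num), lt_of_le_of_lt (min_le_left _ _) ha1, ?_⟩
  intro K _ _ N n hn ε η hε hη
  obtain ⟨δ, X₀, hδ, H0⟩ := core K n (fun j => (hn j).conj) (fun j => (hn j).ne_zero) ha1 he hk
    (min_le_left a₀ (1 / 3)) (min_le_right a₀ (1 / 3)) ε η hε hη
  refine ⟨δ, X₀, hδ, ?_⟩
  intro l d i N' X 𝔪 χ ρ hCM 𝔮 hbot htop hdvd hX hU E _ _ _ art hE B hB
  have hle : 𝔮 ≤ 𝔪 := Ideal.dvd_iff_le.mp hdvd
  set ι := algebraMap (𝓞 K) (𝓞 E) with hι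
  have hE' : IsRCF 𝔮 E ι art :=
    ⟨hE.mul, hE.invariants, hE.kernel, hE.unramified, hE.frobenius⟩
  choose F hFD hF using fun j => exists_Dn htop hle (hCM.char j)
  obtain ⟨G, hGd, hGprod, hGne, hGT⟩ := H0 𝔮 hbot htop hX hU F hFD E ι art hE'
    (ev_real hbot htop hle hCM hE' hF)
  -- the places above `𝔮`
  obtain ⟨x, hx, hx0⟩ := Submodule.exists_mem_ne_zero_of_ne_bot hbot
  have hιx : ι x ≠ 0 := fun h => hx0 (Pool.Agent.N784.CZ.ran_inj ι (by rw [h, map_zero]))
  have hfin : {w : HeightOneSpectrum (𝓞 E) | 𝔮.map ι ≤ w.asIdeal}.Finite :=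
    (Pool.Agent.W164.RC.places_finite hιx).subset fun w hw => hw (Ideal.mem_map_of_mem ι hx)
  set S : Finset (HeightOneSpectrum (𝓞 E)) := hfin.toFinset with hS
  have hmemS : ∀ w, w ∈ S ↔ 𝔮.map ι ≤ w.asIdeal := fun w => by rw [hS]; simp
  have hq1 : ∀ w : HeightOneSpectrum (𝓞 E), (1 : ℝ) < (Ideal.absNorm w.asIdeal : ℝ) :=
    Pool.Agent.W353.PV.one_lt_norm
  have hq0 : ∀ w : HeightOneSpectrum (𝓞 E), (Ideal.absNorm w.asIdeal : ℂ) ≠ 0 := by
    intro w h0
    have h1 := hq1 w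
    have h2 : (Ideal.absNorm w.asIdeal : ℝ) = 0 := by exact_mod_cast h0
    linarith
  have hev0 : ∀ w ∈ S, ∀ j, ev ι htop (F j) w = 0 := by
    intro w hw j
    unfold ev
    rw [dif_neg]
    rw [cop_iff]
    exact not_not.mpr ((hmemS w).mp hw)
  -- the bad factors
  set D : ℂ → ℂ := fun s => ∏ w ∈ S, (B w).eval ((Ideal.absNorm w.asIdeal : ℂ) ^ (-s)) with hD
  have hDd : Differentiable ℂ D := by
    refine Differentiable.fun_finsetProd fun w _ => ?_
    refine (Polynomial.differentiable (B w)).comp ?_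
    intro s
    exact (differentiableAt_id.neg).const_cpow (Or.inl (hq0 w))
  have hDne : ∀ s : ℂ, (i : ℝ) / 2 < s.re → D s ≠ 0 := by
    intro s hs
    rw [hD]
    simp only
    rw [Finset.prod_ne_zero_iff]
    intro w hw h0
    have h1 := hB.bad w ((hmemS w).mp hw) _ h0
    have h2 : 0 < Ideal.absNorm w.asIdeal := by
      have := hq1 w
      exact_mod_cast (by linarith : (0 : ℝ) < (Ideal.absNorm w.asIdeal : ℝ))
    rw [Complex.norm_natCast_cpow_of_pos h2, Complex.neg_re] at h1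
    have h3 : (Ideal.absNorm w.asIdeal : ℝ) ^ (-s.re) <
        (Ideal.absNorm w.asIdeal : ℝ) ^ (-((i : ℝ) / 2)) :=
      Real.rpow_lt_rpow_of_exponent_lt (hq1 w) (by linarith)
    linarith
  set c : ℂ := (i : ℂ) / 2 with hc
  have hcre : c.re = (i : ℝ) / 2 := by
    rw [hc]
    have : ((i : ℂ) / 2) = (((i : ℝ) / 2 : ℝ) : ℂ) := by push_cast; rfl
    rw [this, Complex.ofReal_re]
  have hcim : c.im = 0 := by
    rw [hc]
    have : ((i : ℂ) / 2) = (((i : ℝ) / 2 : ℝ) : ℂ) := by push_cast; rfl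
    rw [this, Complex.ofReal_im]
  have hre : ∀ s : ℂ, (s - c).re = s.re - (i : ℝ) / 2 := fun s => by rw [Complex.sub_re, hcre]
  have him : ∀ s : ℂ, (s - c).im = s.im := fun s => by rw [Complex.sub_im, hcim, sub_zero]
  set L : ℂ → ℂ := fun s => G (s - c) * (D s)⁻¹ with hL
  have hGcd : Differentiable ℂ (fun s => G (s - c)) := hGd.comp (differentiable_id.sub_const _)
  have hLan : ∀ s : ℂ, (i : ℝ) / 2 < s.re → AnalyticAt ℂ L s := fun s hs =>
    (hGcd.analyticAt s).mul ((hDd.analyticAt s).inv (hDne s hs))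
  have hLord : ∀ s : ℂ, (i : ℝ) / 2 < s.re → analyticOrderNatAt L s =
      analyticOrderNatAt G (s - c) := by
    intro s hs
    unfold analyticOrderNatAt
    have h1 : analyticOrderAt L s = analyticOrderAt (fun z => G (z - c)) s +
        analyticOrderAt (fun z => (D z)⁻¹) s :=
      analyticOrderAt_mul (hGcd.analyticAt s) ((hDd.analyticAt s).inv (hDne s hs))
    have h2 : analyticOrderAt (fun z => (D z)⁻¹) s = 0 := by
      have h3 : AnalyticAt ℂ (fun z => (D z)⁻¹) s := (hDd.analyticAt s).inv (hDne s hs)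
      rw [h3.analyticOrderAt_eq_zero]
      exact inv_ne_zero (hDne s hs)
    have h3 : analyticOrderAt (fun z => G (z - c)) s = analyticOrderAt G (s - c) := by
      have hg : AnalyticAt ℂ (fun z : ℂ => z - c) s := by fun_prop
      have hd : deriv (fun z : ℂ => z - c) s ≠ 0 := by simp
      exact analyticOrderAt_comp_of_deriv_ne_zero (f := G) hg hd
    rw [h1, h2, add_zero, h3]
  have hL0 : ∀ s : ℂ, (i : ℝ) / 2 < s.re → (L s = 0 ↔ G (s - c) = 0) := by
    intro s hs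
    rw [hL]
    simp only
    rw [mul_eq_zero, inv_eq_zero]
    exact ⟨fun h => h.resolve_right (hDne s hs), Or.inl⟩
  refine ⟨L, ⟨?_, ?_, fun s hs => hLan s hs, ?_⟩, ?_⟩
  · -- the Euler product
    intro s hs
    have hs' : 1 < (s - c).re := by rw [hre]; linarith
    have h1 := hGprod _ hs'
    have h2 : HasProd (fun w : HeightOneSpectrum (𝓞 E) =>
        if w ∈ S then ((B w).eval ((Ideal.absNorm w.asIdeal : ℂ) ^ (-s)))⁻¹ else 1)
        (∏ w ∈ S, if w ∈ S then ((B w).eval ((Ideal.absNorm w.asIdeal : ℂ) ^ (-s)))⁻¹ else 1) :=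
      hasProd_prod_of_ne_finset_one fun w hw => if_neg hw
    have h3 : (∏ w ∈ S, if w ∈ S then ((B w).eval ((Ideal.absNorm w.asIdeal : ℂ) ^ (-s)))⁻¹
        else 1) = (D s)⁻¹ := by
      rw [hD]
      simp only
      rw [← Finset.prod_inv_distrib]
      exact Finset.prod_congr rfl fun w hw => if_pos hw
    rw [h3] at h2
    refine (h1.mul h2).congr_fun fun w => ?_
    by_cases hw : w ∈ S
    · rw [if_pos hw]
      have h4 : ∏ j, (1 - ev ι htop (F j) w * (Ideal.absNorm w.asIdeal : ℂ) ^ (-(s - c)))⁻¹ =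
          1 := by
        refine Finset.prod_eq_one fun j _ => ?_
        rw [hev0 w hw j, zero_mul, sub_zero, inv_one]
      rw [h4, one_mul]
    · rw [if_neg hw, mul_one]
      have hw' : ¬ 𝔮.map ι ≤ w.asIdeal := fun h => hw ((hmemS w).mpr h)
      obtain ⟨A, hA, hBA⟩ := hB.good w hw'
      have h4 := Multiset.add_left_inj.mp
        (fro_unique hCM.le (isFrobenius_iff.mp hA) (eig_E hbot htop hle hCM hE' hF hw'))
      rw [hBA, h4, Finset.prod_inv_distrib, Multiset.map_map]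
      congr 1
      refine Finset.prod_congr rfl fun j _ => ?_
      simp only [Function.comp_apply]
      congr 1
      rw [neg_sub, sub_eq_add_neg, Complex.cpow_add _ _ (hq0 w)]
      ring
  · -- meromorphic
    intro s _
    exact (hGcd.analyticAt s).meromorphicAt.mul (hDd.analyticAt s).meromorphicAt.inv
  · intro s hs
    have h1 : (i : ℝ) / 2 < s.re := by linarith
    rw [Ne, hL0 s h1]
    refine hGne _ ?_
    rw [hre]
    linarith
  · -- the zeros
    intro T hT hTh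
    obtain ⟨c1, c2⟩ := hGT T hT hTh
    have hcard : (Nat.card (Cls (pi1 htop)) : ℝ) = (Module.finrank K E : ℝ) := by
      have h7 := Pool.Agent.N134.CZ.t_deg K 𝔮 hbot htop E ι art hE'
      have h8 : 0 < Module.finrank ℚ K := Module.finrank_pos
      have h9 : Module.finrank ℚ K * Module.finrank K E = Module.finrank ℚ E :=
        Module.finrank_mul_finrank ℚ K E
      rw [← h9] at h7
      exact_mod_cast (Nat.eq_of_mul_eq_mul_left h8 h7).symm
    have hlt1 : ∀ s : ℂ, G (s - c) = 0 → (s - c).re < 1 := by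
      intro s h
      by_contra hcon
      exact hGne _ (not_lt.mp hcon) h
    have k1 : N₁ L i T = cnt G (strip T (2 * T)) := by
      refine sum_shift (c := c) ?_ ?_
      · intro s
        constructor
        · rintro ⟨b1, b2, b3, b4⟩
          have h0 := (hL0 s b1).mp b4
          refine ⟨⟨?_, hlt1 s h0, ?_, ?_⟩, h0⟩
          · rw [hre]; linarith
          · rw [him]; exact b2
          · rw [him]; exact b3
        · rintro ⟨⟨b1, b2, b3, b4⟩, b5⟩
          rw [hre] at b1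
          rw [him] at b3 b4
          have b1' : (i : ℝ) / 2 < s.re := by linarith
          exact ⟨b1', b3, b4, (hL0 s b1').mpr b5⟩
      · rintro s ⟨b1, -⟩
        exact hLord s b1
    have k2 : N₀ L i T = cnt G (line T (2 * T)) := by
      refine sum_shift (c := c) ?_ ?_
      · intro s
        constructor
        · rintro ⟨⟨b1, b2, b3, b4⟩, b5⟩
          have h0 := (hL0 s b1).mp b4
          refine ⟨⟨?_, ?_, ?_⟩, h0⟩
          · rw [hre, b5]; ring
          · rw [him]; exact b2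
          · rw [him]; exact b3
        · rintro ⟨⟨b1, b3, b4⟩, b5⟩
          rw [hre] at b1
          rw [him] at b3 b4
          have b1' : (i : ℝ) / 2 < s.re := by linarith
          refine ⟨⟨b1', b3, b4, (hL0 s b1').mpr b5⟩, ?_⟩
          linarith
      · rintro s ⟨⟨b1, -⟩, -⟩
        exact hLord s b1
    refine ⟨?_, ?_, ?_⟩
    · have h2 : G 2 ≠ 0 := hGne 2 (by norm_num)
      have h3 : {s : ℂ | s ∈ strip T (2 * T) ∧ G s = 0}.Finite :=
        zeros_bdd hGd h2 strip_bdd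
      refine (h3.image (fun s => s + c)).subset ?_
      rintro s ⟨b1, b2, b3, b4⟩
      have h0 := (hL0 s b1).mp b4
      refine ⟨s - c, ⟨⟨?_, hlt1 s h0, ?_, ?_⟩, h0⟩, by ring⟩
      · rw [hre]; linarith
      · rw [him]; exact b2
      · rw [him]; exact b3
    · rw [k1, ← hcard]
      exact c1
    · rw [k1, k2]
      exact c2

end Pool.Agent.Results.MP_7193be_nt.CMCohomologyRayClass
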