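import Pool.Agent.H440.MC.Core
import Pool.Graph.R_seed8.W353.PV.Eig

/-!
# The zeros of `L(H^i(X ⊗ ℚ(ζ_q)), s)` for all varieties `X` over `ℚ` with modular cohomology

`X` is a smooth projective variety over `ℚ`, of any dimension, and `i ≥ 0` is such that `H^i(X)` is modular:
the eigenvalues of the Frobenius on `H^i(X)` at the primes `p` not dividing `N` are those of the Tate twists
of the motives of finitely many newforms `f_1, …, f_m`, of arbitrary weights `k_j ≥ 1`, levels `M_j ∣ N` and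
nebentypus characters `ψ_j`, and of finitely many primitive Dirichlet characters `ρ_1, …, ρ_m'` of
conductors dividing `N` (`m' = 0` if `i` is odd).  By theorems of Eichler, Shimura, Deligne, Scholl, Wiles,
Khare, Wintenberger and others this is so, for instance, for all modular curves, all abelian varieties of
`GL_2`-type and their products (`i = 1`), for the parts of the cohomology of the Kuga-Sato varieties which
belong to cusp forms, for all rigid Calabi-Yau threefolds over `ℚ` (`i = 3`, one newform of weight 4), for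
the K3 surfaces of Picard number 20 over `ℚ` with abelian Galois action on the cycles (`i = 2`, one newform
of weight 3 and 20 Dirichlet characters) and for all rational surfaces with such an action.

For every cyclotomic field `K = ℚ(ζ_q)`, `q` prime to `N`, the variety `X ⊗ K`, as a variety over `ℚ`, is one
of the varieties of the problem, and `L(H^i(X ⊗ K), s)` is its `L`-function.  We prove that it is, apart from
a pole at `s = i/2 + 1` of order at most the number of the trivial `ρ_l`, an entire function, and, on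
average over all `q` in a window `X < q ≤ Y`, that at least 67.25 per cent of all its zeros with
`i/2 < Re s < i/2 + 1`, `T < Im s ≤ 2T` lie on the line `Re s = (i + 1)/2`.

The theorem for one family of twists is the one of `W388` (helper388 and co-authors,
`MP_77948b_nt.NewformTwists6725`, `MP_873b76_nt.OddArtin6725`); the case of the newforms of weight 2 with
trivial character is `MP_7193be_nt.ModularCurves6725` (helper165).
-/

set_option autoImplicit false
set_option maxHeartbeats 4000000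

open Complex NumberField IsDedekindDomain UpperHalfPlane MatrixGroups CongruenceSubgroup

namespace Pool.Agent.Results.MP_7193be_nt.ModularCohomologyCyclotomic

section variety

variable {l : ℕ}

/-- The set `X` of homogeneous polynomials over `ℤ` in `l` variables gives a projective variety.  For a
field `κ` with `q` elements this is `(q - 1)` times the number of the points of `X` with coordinates in
`κ`: the number of the nonzero solutions of the equations. -/
noncomputable def cone (X : Set (MvPolynomial (Fin l) ℤ)) (κ : Type) [Field κ] : ℕ :=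
  Nat.card {u : Fin l → κ // u ≠ 0 ∧ ∀ f ∈ X, MvPolynomial.aeval u f = 0}

/-- The elements of the finite multiset `A` are the eigenvalues of the geometric Frobenius of the field
with `Q` elements on `H^i(X)`, for a variety `X` of dimension `d` with good reduction at the characteristic
of this field: there are finite multisets `β_k` of complex numbers of absolute value `Q^{k/2}`,
`k = 0, …, 2d`, with `β_i = A`, such that for every field `κ` with `Q^e` elements the number of the points of
`X` with coordinates in `κ` is `∑ (-1)^k ∑_{z ∈ β_k} z^e`.  By the theorem of Deligne such `β_k` exist in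
almost all characteristics if `X` is smooth, and `β_i` has as many elements as the `i`-th Betti number of
`X`; they are unique. -/
def IsFrobenius (X : Set (MvPolynomial (Fin l) ℤ)) (d i Q : ℕ) (A : Multiset ℂ) : Prop :=
  ∃ β : ℕ → Multiset ℂ, β i = A ∧
    (∀ k, ∀ z ∈ β k, ‖z‖ = (Q : ℝ) ^ ((k : ℝ) / 2)) ∧
    ∀ (κ : Type) [Field κ] [Finite κ] (e : ℕ), Nat.card κ = Q ^ e →
      (cone X κ : ℂ) = ((Q : ℂ) ^ e - 1) *
        ∑ k ∈ Finset.range (2 * d + 1), (-1 : ℂ) ^ k * ((β k).map (fun z => z ^ e)).sum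

end variety

section forms

/-- The `n`-th Fourier coefficient `a(n)` of `f(τ) = ∑ a(n) e^(2πinτ)`. -/
noncomputable def coef {M : ℕ} {k : ℤ} (f : CuspForm (Gamma1 M : Subgroup (GL (Fin 2) ℝ)) k)
    (n : ℕ) : ℂ := (qExpansion 1 f).coeff n

/-- `f` is a newform of weight `k`, level `M`, nebentypus `ψ`; the properties that are used:
`f(γτ) = ψ(d) (cτ+d)^k f(τ)` for `γ = (a b; c d)` in `Γ₀(M)`, `a(1) = 1`, the Hecke relations
`a(mn) = a(m) a(n)` for coprime `m`, `n` and `a(p^(j+2)) = a(p) a(p^(j+1)) - ψ(p) p^(k-1) a(p^j)`,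
`conj a(n) = conj ψ(n) a(n)` for `n` prime to `M`, and the Fricke involution maps `f` to a multiple
of the form with the conjugate coefficients,
`f(-1/(Mτ)) = η (√M τ/i)^k conj (f(-conj τ))` with `|η| = 1`. -/
structure IsNewform (M : ℕ) (k : ℤ) (ψ : DirichletCharacter ℂ M)
    (f : CuspForm (Gamma1 M : Subgroup (GL (Fin 2) ℝ)) k) : Prop where
  neb : ∀ γ : SL(2, ℤ), γ ∈ Gamma0 M → ∀ τ : ℍ,
    f (γ • τ) = ψ ((γ 1 1 : ℤ) : ZMod M) * (denom γ τ) ^ k * f τ
  one : coef f 1 = 1
  mul : ∀ m n : ℕ, Nat.Coprime m n → coef f (m * n) = coef f m * coef f n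
  pow : ∀ p j : ℕ, p.Prime → coef f (p ^ (j + 2)) = coef f p * coef f (p ^ (j + 1)) -
    ψ (p : ZMod M) * (p : ℂ) ^ (k - 1) * coef f (p ^ j)
  conj : ∀ n : ℕ, Nat.Coprime n M → (starRingEnd ℂ) (coef f n) =
    (starRingEnd ℂ) (ψ (n : ZMod M)) * coef f n
  fricke : ∃ η : ℂ, ‖η‖ = 1 ∧ ∀ τ τ' τc : ℍ, (τ' : ℂ) * ((M : ℂ) * (τ : ℂ)) = -1 →
    (τc : ℂ) = -(starRingEnd ℂ) (τ : ℂ) →
    f τ' = η * (((Real.sqrt M : ℝ) : ℂ) * (τ : ℂ) / Complex.I) ^ k * (starRingEnd ℂ) (f τc)

/-- finite families of newforms (of any levels, weights at least one, and nebentypus characters) and of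
primitive Dirichlet characters -/
structure Datum (m m' : ℕ) where
  level : Fin m → ℕ
  level_ne : ∀ j, level j ≠ 0
  weight : Fin m → ℤ
  weight_pos : ∀ j, 1 ≤ weight j
  neb : (j : Fin m) → DirichletCharacter ℂ (level j)
  form : (j : Fin m) → CuspForm (Gamma1 (level j) : Subgroup (GL (Fin 2) ℝ)) (weight j)
  newform : ∀ j, IsNewform (level j) (weight j) (neb j) (form j)
  modulus : Fin m' → ℕ
  modulus_ne : ∀ j, modulus j ≠ 0
  char : (j : Fin m') → DirichletCharacter ℂ (modulus j)
  primitive : ∀ j, (char j).IsPrimitive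

variable {m m' : ℕ}

/-- the trace `a_j(p) p^((i+1-k_j)/2)` of the Frobenius at `p` on the Tate twist of weight `i` of the
motive of the newform `f_j` -/
noncomputable def Datum.tr (D : Datum m m') (i : ℕ) (p : ℕ) (j : Fin m) : ℂ :=
  coef (D.form j) p * (p : ℂ) ^ (((i : ℂ) + 1 - (D.weight j : ℂ)) / 2)

/-- the determinant `ψ_j(p) p^i` of the Frobenius at `p` on it (zero if `p` divides the level) -/
noncomputable def Datum.det (D : Datum m m') (i : ℕ) (p : ℕ) (j : Fin m) : ℂ :=
  D.neb j (p : ZMod (D.level j)) * (p : ℂ) ^ i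

/-- the eigenvalue `ρ_j(p) p^(i/2)` of the Frobenius on the Tate twist of weight `i` of the motive of the
Dirichlet character `ρ_j` (zero if `p` divides the conductor) -/
noncomputable def Datum.ev (D : Datum m m') (i : ℕ) (p : ℕ) (j : Fin m') : ℂ :=
  D.char j (p : ZMod (D.modulus j)) * (p : ℂ) ^ ((i : ℂ) / 2)

/-- the number of the trivial characters among the `ρ_j` -/
noncomputable def Datum.poles (D : Datum m m') : ℕ := ∑ j, if D.modulus j = 1 then 1 else 0

/-- The cohomology `H^i(X)` of the projective variety `X` over `ℚ`, of dimension `d`, is modular: the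
levels of the newforms `f_j` and the conductors of the characters `ρ_j` divide `N`, and at the primes `p`
not dividing `N` the eigenvalues of the Frobenius on it are the roots `α_j`, `β_j` of the polynomials
`x² - a_j(p) p^((i+1-k_j)/2) x + ψ_j(p) p^i` and the numbers `ρ_j(p) p^(i/2)`. -/
structure IsModular {l : ℕ} (X : Set (MvPolynomial (Fin l) ℤ)) (d i N : ℕ) (D : Datum m m') :
    Prop where
  le : i ≤ 2 * d
  frobenius : ∀ p : ℕ, p.Prime → ¬ p ∣ N → ∀ α β : Fin m → ℂ,
    (∀ j, α j + β j = D.tr i p j ∧ α j * β j = D.det i p j) →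
    IsFrobenius X d i p (Finset.univ.val.map α + Finset.univ.val.map β +
      Finset.univ.val.map (D.ev i p))

/-- `pw t u n = α ^ n + β ^ n`, where `α`, `β` are the roots of `x² - t x + u` -/
noncomputable def pw (t u : ℂ) : ℕ → ℂ
  | 0 => 2
  | 1 => t
  | n + 2 => t * pw t u (n + 1) - u * pw t u n

/-- the product of the Euler polynomials of the newforms and characters at a place of norm `p ^ f` of an
unramified extension: `∏ (1 - (α_j^f + β_j^f) z + (α_j β_j)^f z²) ∏ (1 - ρ_j(p)^f p^(f i/2) z)` -/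
noncomputable def Datum.euler (D : Datum m m') (i p f : ℕ) (z : ℂ) : ℂ :=
  (∏ j, (1 - pw (D.tr i p j) (D.det i p j) f * z + D.det i p j ^ f * z ^ 2)) *
    ∏ j, (1 - D.ev i p j ^ f * z)

/-- The polynomials `B v` define the Euler factors `1 / B_v(q_v^{-s})` of `L(H^i(X ⊗ K), s)`: for the
primes `v` of `K` not dividing `N` it is the product of the `1 - α z` over the eigenvalues `α` of the
Frobenius on `H^i(X)`; at the primes dividing `N` it is the Euler polynomial of the newforms and characters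
(by the local-global compatibility of Deligne, Langlands, Carayol and Saito for modular forms this is the
one given by the invariants of inertia). -/
structure IsEulerSystem {l : ℕ} (X : Set (MvPolynomial (Fin l) ℤ)) (d i N : ℕ) (D : Datum m m')
    (K : Type) [Field K] [NumberField K] (B : HeightOneSpectrum (𝓞 K) → Polynomial ℂ) : Prop where
  good : ∀ v : HeightOneSpectrum (𝓞 K), (N : 𝓞 K) ∉ v.asIdeal →
    ∃ A : Multiset ℂ, IsFrobenius X d i (Ideal.absNorm v.asIdeal) A ∧
      ∀ z : ℂ, (B v).eval z = (A.map fun α => 1 - α * z).prod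
  bad : ∀ v : HeightOneSpectrum (𝓞 K), (N : 𝓞 K) ∈ v.asIdeal → ∀ p f : ℕ, p.Prime →
    Ideal.absNorm v.asIdeal = p ^ f → ∀ z : ℂ, (B v).eval z = D.euler i p f z

end forms

/-- `L` is the function `∏_v B_v(q_v^{-s})⁻¹`: this product converges to it for `Re s > i/2 + 1`, and
`(s - i/2 - 1)^r L(s)` is an entire function. -/
structure IsLFunction {K : Type} [Field K] [NumberField K] (i r : ℕ)
    (B : HeightOneSpectrum (𝓞 K) → Polynomial ℂ) (L : ℂ → ℂ) : Prop where
  product : ∀ s : ℂ, (i : ℝ) / 2 + 1 < s.re →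
    HasProd (fun v => ((B v).eval ((Ideal.absNorm v.asIdeal : ℂ) ^ (-s)))⁻¹) (L s)
  entire : ∃ E : ℂ → ℂ, Differentiable ℂ E ∧
    ∀ s : ℂ, s ≠ (i : ℂ) / 2 + 1 → E s = (s - ((i : ℂ) / 2 + 1)) ^ r * L s

/-- The zeros of `L` with `i/2 < Re s < i/2 + 1` and `T < Im s ≤ 2T`. -/
def zeros (L : ℂ → ℂ) (i : ℕ) (T : ℝ) : Set ℂ :=
  {s : ℂ | (i : ℝ) / 2 < s.re ∧ s.re < (i : ℝ) / 2 + 1 ∧ T < s.im ∧ s.im ≤ 2 * T ∧ L s = 0}

/-- The number of these zeros, counted with multiplicity. -/
noncomputable def N₁ (L : ℂ → ℂ) (i : ℕ) (T : ℝ) : ℕ := ∑ᶠ s ∈ zeros L i T, analyticOrderNatAt L s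

/-- The number of those of them that lie on the line `Re s = (i + 1)/2`, counted with multiplicity. -/
noncomputable def N₀ (L : ℂ → ℂ) (i : ℕ) (T : ℝ) : ℕ :=
  ∑ᶠ s ∈ {s : ℂ | s ∈ zeros L i T ∧ s.re = ((i : ℝ) + 1) / 2}, analyticOrderNatAt L s

/-- the sum of `g q / q²` over the `q` prime to `N` with `X < q ≤ Y` -/
noncomputable def avg (N X Y : ℕ) (g : ℕ → ℝ) : ℝ :=
  ∑ q ∈ (Finset.Ioc X Y).filter (fun q => Nat.Coprime q N), (1 / (q : ℝ) ^ 2) * g q

/-! ### Auxiliary facts -/

open Pool.Agent.H440.MC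
open Pool.Agent.H82R3.EK (cnt strip line)
open Pool.Agent.H921R2.TatePole (below deg nm nm_eq)

/-- counting zeros after a shift -/
lemma sum_shift {G L : ℂ → ℂ} {c : ℂ} {W V : Set ℂ} (hL : ∀ s, L s = G (s - c))
    (h : ∀ s, s ∈ V ↔ s - c ∈ W ∧ G (s - c) = 0) :
    ∑ᶠ s ∈ V, analyticOrderNatAt L s = cnt G W := by
  have h1 : V = (fun s : ℂ => s + c) '' {s : ℂ | s ∈ W ∧ G s = 0} := by
    ext s
    rw [h]
    constructor
    · intro hs
      exact ⟨s - c, hs, by ring⟩
    · rintro ⟨t, ht, rfl⟩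
      simpa using ht
  unfold cnt
  rw [h1, finsum_mem_image (fun a _ b _ hab => by simpa using hab)]
  refine finsum_mem_congr rfl fun s hs => ?_
  have hg : AnalyticAt ℂ (fun z : ℂ => z - c) (s + c) := by fun_prop
  have hd : deriv (fun z : ℂ => z - c) (s + c) ≠ 0 := by simp
  have h2 := analyticOrderAt_comp_of_deriv_ne_zero (f := G) hg hd
  have h3 : L = G ∘ (fun z : ℂ => z - c) := funext hL
  unfold H370.mult analyticOrderNatAt
  rw [h3, h2]
  simp

lemma pw_lib (t u : ℂ) : ∀ n : ℕ, pw t u n = W165.CE.pw t u n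
  | 0 => rfl
  | 1 => rfl
  | n + 2 => by
    rw [pw, W165.CE.pw, pw_lib t u (n + 1), pw_lib t u n]

lemma pw_scale (c t u : ℂ) : ∀ n : ℕ, pw (c * t) (c ^ 2 * u) n = c ^ n * pw t u n
  | 0 => by simp [pw]
  | 1 => by simp [pw]
  | n + 2 => by
    rw [pw, pw, pw_scale c t u (n + 1), pw_scale c t u n]
    ring

lemma pw_zero (t : ℂ) : ∀ n : ℕ, n ≠ 0 → pw t 0 n = t ^ n
  | 0, h => absurd rfl h
  | 1, _ => by simp [pw]
  | n + 2, _ => by
    rw [pw, pw_zero t (n + 1) (by omega), zero_mul, sub_zero]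
    ring

lemma pw_roots {t u α β : ℂ} (h1 : α + β = t) (h2 : α * β = u) (n : ℕ) :
    pw t u n = α ^ n + β ^ n := by
  rw [pw_lib, W165.CE.pw_eq h1 h2]

section frob

variable {l d i : ℕ} {X : Set (MvPolynomial (Fin l) ℤ)}

/-- the eigenvalues over an extension are the powers -/
lemma frob_lift {Q f : ℕ} {A : Multiset ℂ} (h : IsFrobenius X d i Q A) :
    IsFrobenius X d i (Q ^ f) (A.map fun z => z ^ f) := by
  obtain ⟨β, h1, h2, h3⟩ := h
  refine ⟨fun k => (β k).map (fun z => z ^ f), ?_, ?_, ?_⟩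
  · simp only [h1]
  · intro k z hz
    obtain ⟨y, hy, rfl⟩ := Multiset.mem_map.1 hz
    rw [norm_pow, h2 k y hy, Nat.cast_pow, ← Real.rpow_natCast, ← Real.rpow_natCast,
      ← Real.rpow_mul (Nat.cast_nonneg _), ← Real.rpow_mul (Nat.cast_nonneg _), mul_comm]
  · intro κ _ _ e hc
    rw [h3 κ (f * e) (by rw [hc, ← pow_mul])]
    push_cast
    rw [← pow_mul]
    congr 1
    refine Finset.sum_congr rfl fun k _ => ?_
    congr 2
    rw [Multiset.map_map]
    refine Multiset.map_congr rfl fun z _ => ?_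
    rw [Function.comp_apply, ← pow_mul]

/-- the eigenvalues are unique -/
lemma frob_unique (hi : i ≤ 2 * d) {p f : ℕ} (hp : p.Prime) (hf : f ≠ 0) {A A' : Multiset ℂ}
    (h : IsFrobenius X d i (p ^ f) A) (h' : IsFrobenius X d i (p ^ f) A') : A = A' := by
  obtain ⟨β, h1, h2, h3⟩ := h
  obtain ⟨β', h1', h2', h3'⟩ := h'
  have hQ : (1 : ℝ) < ((p ^ f : ℕ) : ℝ) := by
    exact_mod_cast Nat.one_lt_pow hf hp.one_lt
  rw [← h1, ← h1']
  refine Pool.Agent.W353.PV.mult_unique (D := 2 * d + 1) hQ h2 h2' (fun e he => ?_) (by omega)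
  have : Fact p.Prime := ⟨hp⟩
  have hc : Nat.card (GaloisField p (f * e)) = (p ^ f) ^ e := by
    rw [GaloisField.card p (f * e) (Nat.mul_ne_zero hf (by omega)), pow_mul]
  have e1 := h3 (GaloisField p (f * e)) e hc
  rw [h3' (GaloisField p (f * e)) e hc] at e1
  refine (mul_left_cancel₀ ?_ e1).symm
  have h4 : (1 : ℝ) < ((p ^ f : ℕ) : ℝ) ^ e := one_lt_pow₀ hQ (by omega)
  intro h5
  have h6 : (((p ^ f : ℕ) : ℂ) ^ e) = 1 := sub_eq_zero.1 h5
  have h7 : (((p ^ f : ℕ) : ℝ) ^ e) = 1 := by exact_mod_cast h6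
  linarith

end frob

section local_factors

variable {m m' : ℕ} (D : Datum m m') (i : ℕ)

lemma tr_eq {p : ℕ} (hp : p.Prime) (j : Fin m) :
    D.tr i p j = (p : ℂ) ^ ((i : ℂ) / 2) * W388.lamC (D.form j) p := by
  have hpc : (p : ℂ) ≠ 0 := by exact_mod_cast hp.ne_zero
  have : NeZero (D.level j) := ⟨D.level_ne j⟩
  have h1 : coef (D.form j) p = W388.lamC (D.form j) p * (p : ℂ) ^ (((D.weight j : ℂ) - 1) / 2) :=
    W388.lamC_eq (D.form j) p hp.ne_zero
  unfold Datum.tr
  rw [h1, mul_assoc, ← Complex.cpow_add _ _ hpc, mul_comm]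
  congr 2
  ring

lemma det_eq {p : ℕ} (j : Fin m) :
    D.det i p j = ((p : ℂ) ^ ((i : ℂ) / 2)) ^ 2 * D.neb j (p : ZMod (D.level j)) := by
  unfold Datum.det
  rw [mul_comm, ← Complex.cpow_nat_mul]
  congr 1
  rw [show ((2 : ℕ) : ℂ) * ((i : ℂ) / 2) = (i : ℂ) by push_cast; ring, Complex.cpow_natCast]

lemma ev_eq {p : ℕ} (j : Fin m') :
    D.ev i p j = (p : ℂ) ^ ((i : ℂ) / 2) * D.char j (p : ZMod (D.modulus j)) := by
  unfold Datum.ev
  rw [mul_comm]

/-- the coefficients of the unitary normalisation -/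
noncomputable def tt : Fin m ⊕ Fin m' → ℕ → ℂ :=
  Sum.elim (fun j p => W388.lamC (D.form j) p) (fun j p => D.char j (p : ZMod (D.modulus j)))

noncomputable def uu : Fin m ⊕ Fin m' → ℕ → ℂ :=
  Sum.elim (fun j p => D.neb j (p : ZMod (D.level j))) (fun _ _ => 0)

lemma euler_eq {p f : ℕ} (hp : p.Prime) (hf : f ≠ 0) (z : ℂ) :
    D.euler i p f z = ∏ x, (1 - W165.CE.pw (tt D x p) (uu D x p) f *
      (((p : ℂ) ^ ((i : ℂ) / 2)) ^ f * z) + uu D x p ^ f *
      (((p : ℂ) ^ ((i : ℂ) / 2)) ^ f * z) ^ 2) := by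
  unfold Datum.euler
  rw [Fintype.prod_sum_type]
  congr 1
  · refine Finset.prod_congr rfl fun j _ => ?_
    rw [tr_eq D i hp, det_eq, pw_scale, pw_lib]
    simp only [tt, uu, Sum.elim_inl]
    ring
  · refine Finset.prod_congr rfl fun j _ => ?_
    rw [ev_eq]
    simp only [tt, uu, Sum.elim_inr]
    rw [← pw_lib, pw_zero _ f hf, zero_pow hf]
    ring

/-- at the good places the Euler polynomial is the one of the newforms and characters -/
lemma eval_good {l d N : ℕ} {X : Set (MvPolynomial (Fin l) ℤ)} (hX : IsModular X d i N D) {p f : ℕ}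
    (hp : p.Prime) (hpN : ¬ p ∣ N) (hf : f ≠ 0) {A : Multiset ℂ}
    (hA : IsFrobenius X d i (p ^ f) A) (z : ℂ) :
    (A.map fun α => 1 - α * z).prod = D.euler i p f z := by
  have h := fun j => W165.CE.exists_roots' (D.tr i p j) (D.det i p j)
  choose α β h using h
  have h1 := frob_lift (f := f) (hX.frobenius p hp hpN α β h)
  rw [frob_unique hX.le hp hf hA h1]
  simp only [Multiset.map_add, Multiset.map_map, Multiset.prod_add, Function.comp_def]
  unfold Datum.euler
  rw [← Finset.prod_eq_multiset_prod, ← Finset.prod_eq_multiset_prod,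
    ← Finset.prod_eq_multiset_prod, ← Finset.prod_mul_distrib]
  congr 1
  refine Finset.prod_congr rfl fun j _ => ?_
  rw [pw_roots (h j).1 (h j).2, ← (h j).2]
  ring

end local_factors

/-! ### The theorem -/

open W388 in
lemma isNewfC {M : ℕ} {k : ℤ} {ψ : DirichletCharacter ℂ M}
    {f : CuspForm (Gamma1 M : Subgroup (GL (Fin 2) ℝ)) k} (hf : IsNewform M k ψ f) :
    ∃ η : ℂ, IsNewfC M k ψ f η := by
  obtain ⟨η, h1, h2⟩ := hf.fricke
  exact ⟨η, hf.neb, hf.one, hf.mul, hf.pow, hf.conj, h1, h2⟩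

/-- **Theorem.** Let `f_1, …, f_m` be newforms of any levels dividing `N`, any weights and any nebentypus
characters, and `ρ_1, …, ρ_m'` primitive Dirichlet characters of conductors dividing `N`, `m + m' > 0`.
There are functions `L q` and constants `κ`, `η`, `X₀` with the following properties.
* For every projective variety `X` over `ℚ` whose cohomology `H^i(X)` is given by the `f_j` and `ρ_j`, every
  `q ≥ 1` prime to `N` and `K = ℚ(ζ_q)` there are Euler polynomials of `H^i(X ⊗ K)`, and `L q` is the function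
  `L(H^i(X ⊗ K), s)`: it is given by its Euler product for `Re s > i/2 + 1`, and it is entire apart from a
  pole at `s = i/2 + 1` whose order is at most the number of the trivial `ρ_j`.
* For `X ≥ X₀`, `κ X ≤ Y ≤ X ^ (1 + η)`, `(log X)² ≤ T ≤ X ^ η`, in the average over all `q` prime to `N`,
  `X < q ≤ Y`, with the weight `1/q²`, at least 67.25 per cent of the zeros of `L q` with
  `i/2 < Re s < i/2 + 1`, `T < Im s ≤ 2T` (with multiplicity) lie on the line `Re s = (i + 1)/2`; the
  weighted number of the zeros is at least `(m + m') T (log X) / 10`. -/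
theorem result {m m' : ℕ} (D : Datum m m') (hm : 0 < m + m') (i N : ℕ) (hN : N ≠ 0)
    (hM : ∀ j, D.level j ∣ N) (hR : ∀ j, D.modulus j ∣ N) :
    ∃ L : ℕ → ℂ → ℂ,
      (∀ (l d : ℕ) (X : Set (MvPolynomial (Fin l) ℤ)), IsModular X d i N D →
        ∀ q : ℕ, 1 ≤ q → Nat.Coprime q N →
        ∀ (K : Type) [Field K] [NumberField K] [IsCyclotomicExtension {q} ℚ K],
          (∃ B, IsEulerSystem X d i N D K B) ∧
          ∀ B, IsEulerSystem X d i N D K B → IsLFunction i D.poles B (L q)) ∧
      (∀ q : ℕ, 1 ≤ q → Nat.Coprime q N → ∀ T : ℝ, 1 ≤ T → (zeros (L q) i T).Finite) ∧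
      ∃ κ η X₀ : ℝ, 1 ≤ κ ∧ 0 < η ∧ 1 ≤ X₀ ∧
        ∀ (X Y : ℕ) (T : ℝ), X₀ ≤ X → κ * X ≤ Y → (Y : ℝ) ≤ (X : ℝ) ^ (1 + η) →
        (Real.log X) ^ 2 ≤ T → T ≤ (X : ℝ) ^ η →
        (m + m' : ℕ) * (T * Real.log X / 10) ≤ avg N X Y (fun q => N₁ (L q) i T) ∧
        0.6725 * avg N X Y (fun q => N₁ (L q) i T) ≤ avg N X Y (fun q => N₀ (L q) i T) := by
  classical
  -- the families of twists
  have hP : ∀ x : Fin m ⊕ Fin m', ∃ (A : ℝ) (F : (q : ℕ) → DirichletCharacter ℂ q → ℂ → ℂ),
      Pack ((Sum.elim (fun _ => 2) (fun _ => 1) : Fin m ⊕ Fin m' → ℝ) x)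
        ((Sum.elim (fun _ => 0) (fun j => if D.modulus j = 1 then 1 else 0) :
          Fin m ⊕ Fin m' → ℕ) x)
        ((Sum.elim D.level D.modulus : Fin m ⊕ Fin m' → ℕ) x) (tt D x) (uu D x) A F := by
    rintro (j | j)
    · have h0 : NeZero (D.level j) := ⟨D.level_ne j⟩
      obtain ⟨η, hη⟩ := isNewfC (D.newform j)
      exact @packC (D.level j) h0 _ (D.weight_pos j) _ _ _ hη
    · have h0 : NeZero (D.modulus j) := ⟨D.modulus_ne j⟩
      exact @packD (D.modulus j) h0 _ (D.primitive j)
  choose A F hP using hP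
  have hN' : ∀ x : Fin m ⊕ Fin m', (Sum.elim D.level D.modulus : Fin m ⊕ Fin m' → ℕ) x ∣ N := by
    rintro (j | j)
    · exact hM j
    · exact hR j
  have hne : Nonempty (Fin m ⊕ Fin m') := by
    rw [← Fintype.card_pos_iff, Fintype.card_sum, Fintype.card_fin, Fintype.card_fin]
    exact hm
  have hpoles : ∑ x : Fin m ⊕ Fin m', (Sum.elim (fun _ => 0)
      (fun j => if D.modulus j = 1 then 1 else 0) : Fin m ⊕ Fin m' → ℕ) x = D.poles := by
    rw [Fintype.sum_sum_type]
    simp [Datum.poles]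
  set c : ℂ := (i : ℂ) / 2 with hc
  have hcre : c.re = (i : ℝ) / 2 := by
    rw [hc, show ((i : ℂ) / 2) = (((i : ℝ) / 2 : ℝ) : ℂ) by push_cast; rfl, Complex.ofReal_re]
  have hcim : c.im = 0 := by
    rw [hc, show ((i : ℂ) / 2) = (((i : ℝ) / 2 : ℝ) : ℂ) by push_cast; rfl, Complex.ofReal_im]
  have hcoord : ∀ s : ℂ, (s - c).re = s.re - (i : ℝ) / 2 ∧ (s - c).im = s.im := by
    intro s
    rw [Complex.sub_re, Complex.sub_im, hcre, hcim, sub_zero]
    exact ⟨rfl, rfl⟩
  -- the zeros
  have hz : ∀ (q : ℕ) (T : ℝ) (s : ℂ), s ∈ zeros (fun s => GG F q (s - c)) i T ↔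
      s - c ∈ strip T (2 * T) ∧ GG F q (s - c) = 0 := by
    intro q T s
    obtain ⟨h1, h2⟩ := hcoord s
    unfold zeros strip
    simp only [Set.mem_ofPred_eq]
    rw [h1, h2]
    constructor
    · rintro ⟨a1, a2, a3, a4, a5⟩
      exact ⟨⟨by linarith, by linarith, a3, a4⟩, a5⟩
    · rintro ⟨⟨a1, a2, a3, a4⟩, a5⟩
      exact ⟨by linarith, by linarith, a3, a4, a5⟩
  have hz0 : ∀ (q : ℕ) (T : ℝ) (s : ℂ), s ∈ {s : ℂ | s ∈ zeros (fun s => GG F q (s - c)) i T ∧
      s.re = ((i : ℝ) + 1) / 2} ↔ s - c ∈ line T (2 * T) ∧ GG F q (s - c) = 0 := by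
    intro q T s
    obtain ⟨h1, h2⟩ := hcoord s
    rw [Set.mem_ofPred_eq, hz]
    unfold strip line
    simp only [Set.mem_ofPred_eq]
    rw [h1, h2]
    constructor
    · rintro ⟨⟨⟨a1, a2, a3, a4⟩, a5⟩, a6⟩
      exact ⟨⟨by linarith, a3, a4⟩, a5⟩
    · rintro ⟨⟨a1, a3, a4⟩, a5⟩
      exact ⟨⟨⟨by linarith, by linarith, a3, a4⟩, a5⟩, by linarith⟩
  have hN1 : ∀ (q : ℕ) (T : ℝ), N₁ (fun s => GG F q (s - c)) i T =
      cnt (GG F q) (strip T (2 * T)) := fun q T => sum_shift (c := c) (fun _ => rfl) (hz q T)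
  have hN0 : ∀ (q : ℕ) (T : ℝ), N₀ (fun s => GG F q (s - c)) i T =
      cnt (GG F q) (line T (2 * T)) := fun q T => sum_shift (c := c) (fun _ => rfl) (hz0 q T)
  obtain ⟨κ, η, X₀, hκ, hη, hX₀, havg⟩ := GG_avg hP hN hN'
  refine ⟨fun q s => GG F q (s - c), ?_, ?_, κ, η, X₀, hκ, hη, hX₀, ?_⟩
  · intro l d X hX q hq hqN K _ _ _
    -- the norm of a place
    have hnorm : ∀ v : HeightOneSpectrum (𝓞 K), Ideal.absNorm v.asIdeal =
        (below v : ℕ) ^ deg v ∧ deg v ≠ 0 := fun v => ⟨(nm_eq v).1, (nm_eq v).2.1.ne'⟩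
    have hmem : ∀ v : HeightOneSpectrum (𝓞 K), (N : 𝓞 K) ∈ v.asIdeal ↔ (below v : ℕ) ∣ N := fun v =>
      Pool.Agent.H82R3.EK.natCast_mem_iff v N
    constructor
    · -- existence
      have hB : ∀ v : HeightOneSpectrum (𝓞 K), ∃ P : Polynomial ℂ, ∀ z : ℂ,
          P.eval z = D.euler i (below v) (deg v) z := by
        intro v
        refine ⟨(∏ j, (1 - Polynomial.C (pw (D.tr i (below v) j) (D.det i (below v) j) (deg v)) *
          Polynomial.X + Polynomial.C (D.det i (below v) j ^ deg v) * Polynomial.X ^ 2)) *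
          ∏ j, (1 - Polynomial.C (D.ev i (below v) j ^ deg v) * Polynomial.X), fun z => ?_⟩
        unfold Datum.euler
        simp [Polynomial.eval_mul, Polynomial.eval_prod]
      choose B hB using hB
      refine ⟨B, ?_, ?_⟩
      · intro v hv
        rw [hmem] at hv
        have h := fun j => W165.CE.exists_roots' (D.tr i (below v) j) (D.det i (below v) j)
        choose α β h using h
        have h1 := frob_lift (f := deg v) (hX.frobenius (below v) (below v).2 hv α β h)
        rw [← (hnorm v).1] at h1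
        refine ⟨_, h1, fun z => ?_⟩
        rw [hB v z, ← eval_good D i hX (below v).2 hv (hnorm v).2 ((hnorm v).1 ▸ h1) z]
      · intro v hv p f hp hpf z
        rw [hB v z]
        have h1 : (below v : ℕ) ^ deg v = p ^ f := by rw [← (hnorm v).1, hpf]
        have hf : f ≠ 0 := by
          rintro rfl
          rw [pow_zero] at h1
          have := Nat.one_lt_pow (hnorm v).2 (below v).2.one_lt
          omega
        have h2 : (below v : ℕ) = p := by
          have h3 : (below v : ℕ) ∣ p ^ f := h1 ▸ dvd_pow_self _ (hnorm v).2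
          exact (Nat.prime_dvd_prime_iff_eq (below v).2 hp).mp ((below v).2.dvd_of_dvd_pow h3)
        rw [h2] at h1 ⊢
        rw [Nat.pow_right_injective hp.two_le h1]
    · intro B hB
      refine ⟨?_, ?_⟩
      · intro s hs
        have hs1 : 1 < (s - c).re := by
          rw [(hcoord s).1]
          linarith
        have h1 := GG_euler hP hN' hq hqN K (s - c) hs1
        refine (congrArg (fun g => HasProd g (GG F q (s - c))) (funext fun v => ?_)).mpr h1
        obtain ⟨hv1, hv2⟩ := hnorm v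
        have hev : (B v).eval ((Ideal.absNorm v.asIdeal : ℂ) ^ (-s)) =
            D.euler i (below v) (deg v) ((Ideal.absNorm v.asIdeal : ℂ) ^ (-s)) := by
          by_cases hv : (N : 𝓞 K) ∈ v.asIdeal
          · exact hB.bad v hv _ _ (below v).2 hv1 _
          · obtain ⟨A', hA', hA2⟩ := hB.good v hv
            rw [hmem] at hv
            rw [hA2]
            exact eval_good D i hX (below v).2 hv hv2 (hv1 ▸ hA') _
        rw [hev, euler_eq D i (below v).2 hv2, ← Finset.prod_inv_distrib]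
        refine Finset.prod_congr rfl fun x _ => ?_
        have hb : (Ideal.absNorm v.asIdeal).minFac = (below v : ℕ) := rfl
        have hd : (Ideal.absNorm v.asIdeal).factorization (Ideal.absNorm v.asIdeal).minFac =
            deg v := rfl
        unfold facG
        rw [hd, hb]
        have hN0' : (Ideal.absNorm v.asIdeal : ℂ) ≠ 0 := by
          rw [hv1]
          push_cast
          exact pow_ne_zero _ (by exact_mod_cast (below v).2.ne_zero)
        have h3 : (((below v : ℕ) : ℂ) ^ c) ^ deg v = (Ideal.absNorm v.asIdeal : ℂ) ^ c := by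
          rw [hv1]
          push_cast
          rw [← Pool.Agent.H82R3.EK.pow_cpow]
        have h4 : (Ideal.absNorm v.asIdeal : ℂ) ^ (-(s - c)) =
            (((below v : ℕ) : ℂ) ^ ((i : ℂ) / 2)) ^ deg v * (Ideal.absNorm v.asIdeal : ℂ) ^ (-s) := by
          rw [← hc, h3, ← Complex.cpow_add _ _ hN0']
          congr 1
          ring
        rw [h4]
      · obtain ⟨E, hE, h⟩ := GG_entire hP hN' hq hqN
        rw [hpoles] at h
        refine ⟨fun s => E (s - c), hE.comp (by fun_prop), fun s hs => ?_⟩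
        have h1 : s - c ≠ 1 := by
          intro h2
          apply hs
          rw [← hc]
          linear_combination h2
        show E (s - c) = (s - ((i : ℂ) / 2 + 1)) ^ D.poles * GG F q (s - c)
        rw [h (s - c) h1, ← hc, sub_sub]
  · intro q hq hqN T hT
    have h1 := (GG_zeros hP hN' hq hqN hT).1
    refine (h1.image (fun s => s + c)).subset ?_
    intro s hs
    rw [hz] at hs
    obtain ⟨⟨a1, a2, a3, a4⟩, a5⟩ := hs
    exact ⟨s - c, ⟨a1, a2, a3, a4, a5⟩, by ring⟩
  · intro X Y T a1 a2 a3 a4 a5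
    obtain ⟨-, h1, h2⟩ := havg X Y T a1 a2 a3 a4 a5
    unfold avg
    simp only [hN1, hN0]
    refine ⟨?_, h2⟩
    rw [Fintype.card_sum, Fintype.card_fin, Fintype.card_fin] at h1
    exact h1

end Pool.Agent.Results.MP_7193be_nt.ModularCohomologyCyclotomic
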